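import Pool.Agent.Helper97.DV.Bx
import Pool.Agent.Helper97.DV.Zl
import Pool.Agent.Helper63.RP4.A03s

/-!
# Project DV (MP_973bc8_pr), block LG: the Markov step for the cluster `|h| ≤ 1` of the boundary

`D` is a finite domain with even boundary and connected complement, `h ∈ Om D`, `Cb D h` the nn cluster of
the boundary in `{|h| ≤ 1}`, `Ex D h x` the component of `x` in the rest.  On the boundary of `Ex D h x` the
height is constant, `2` or `-2`, and given `Ex D h x = E` and the heights off `E` the inner part is uniform.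
-/

open Finset RP4 DV

namespace LG

/-- sites of `D` with `|h| ≤ 1` -/
def lw (D : Finset V) (h : V → ℤ) : Set V := {v | v ∈ D ∧ |h v| ≤ 1}

/-- the nn cluster of the boundary of `D` in `{|h| ≤ 1}` -/
def Cb (D : Finset V) (h : V → ℤ) : Set V := clus (lw D h) (bdry D : Set V)

open Classical in
/-- the component of `x` in `D` minus the cluster of the boundary -/
noncomputable def Ex (D : Finset V) (h : V → ℤ) (x : V) : Finset V :=
  D.filter (fun v => v ∈ comp ((D : Set V) \ Cb D h) x)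

/-- even domains with connected complement -/
structure SC (D : Finset V) : Prop where
  par : BdryPar D 0
  con : Cnn (D : Set V)ᶜ

variable {D : Finset V} {h g : V → ℤ} {x y v z : V}

lemma mem_Ex : v ∈ Ex D h x ↔ v ∈ comp ((D : Set V) \ Cb D h) x := by
  classical
  unfold Ex
  rw [mem_filter]
  exact ⟨fun h => h.2, fun h => ⟨(comp_sub _ _ h).1, h⟩⟩

lemma coe_Ex : (Ex D h x : Set V) = comp ((D : Set V) \ Cb D h) x := by
  ext v
  rw [mem_coe, mem_Ex]

lemma Ex_sub : Ex D h x ⊆ D := by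
  classical
  unfold Ex
  exact filter_subset _ _

lemma Ex_not_Cb (hv : v ∈ Ex D h x) : v ∉ Cb D h := (comp_sub _ _ (mem_Ex.1 hv)).2

lemma self_mem_Ex (hx : x ∈ D) (hx' : x ∉ Cb D h) : x ∈ Ex D h x := mem_Ex.2 (mem_comp_self ⟨hx, hx'⟩)

lemma mem_Ex_self (hv : v ∈ Ex D h x) : x ∈ Ex D h x := by
  have h1 := mem_Ex.1 hv
  exact mem_Ex.2 (mem_comp_self h1.left)

lemma Ex_eq_of_mem (hv : v ∈ Ex D h x) : Ex D h v = Ex D h x := by
  have h1 := comp_eq_of_mem (mem_Ex.1 hv)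
  ext w
  rw [mem_Ex, mem_Ex, h1]

lemma bdry_sub_Cb (hh : h ∈ Om D) (hv : v ∈ bdry D) : v ∈ Cb D h := by
  refine sub_clus (mem_coe.2 hv) ⟨bdry_subset D hv, ?_⟩
  rw [(mem_Om.1 hh).2 v hv]
  simp

lemma Cb_low (hv : v ∈ Cb D h) : |h v| ≤ 1 := (clus_sub _ _ hv).2

lemma Cb_sub (hv : v ∈ Cb D h) : v ∈ D := (clus_sub _ _ hv).1

/-- outer neighbours of `Ex` -/
lemma Ex_nbr (hh : h ∈ Om D) (hv : v ∈ Ex D h x) (hvz : Adj v z) (hz : z ∉ Ex D h x) :
    z ∈ Cb D h ∧ h v = 2 * h z ∧ |h z| = 1 := by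
  have hvD := Ex_sub hv
  have hvC := Ex_not_Cb hv
  have hzD : z ∈ D := by
    by_contra hzD
    exact hvC (bdry_sub_Cb hh (mem_bdry.2 ⟨hvD, z, adj_symm hvz, hzD⟩))
  have hzC : z ∈ Cb D h := by
    by_contra hzC
    exact hz (mem_Ex.2 (comp_step (mem_Ex.1 hv) hvz ⟨hzD, hzC⟩))
  have h1 := Cb_low hzC
  have h2 : ¬ |h v| ≤ 1 := fun h2 => hvC (clus_step hzC (adj_symm hvz) ⟨hvD, h2⟩)
  have h3 := (mem_Om.1 hh).1.step v hvD z hzD hvz
  refine ⟨hzC, ?_, ?_⟩ <;>
    rcases abs_cases (h v - h z) with h4 | h4 <;> rcases abs_cases (h v) with h5 | h5 <;>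
      rcases abs_cases (h z) with h6 | h6 <;> omega

lemma Ex_bd (hh : h ∈ Om D) (hv : v ∈ bdry (Ex D h x)) : |h v| = 2 := by
  obtain ⟨h1, u, h2, h3⟩ := mem_bdry.1 hv
  obtain ⟨-, h4, h5⟩ := Ex_nbr hh h1 (adj_symm h2) h3
  rw [h4, abs_mul, h5]
  norm_num

lemma Ex_par (hh : h ∈ Om D) : BdryPar (Ex D h x) 0 := by
  intro v hv
  have h1 := Ex_bd hh hv
  have h2 := (mem_Om.1 hh).1.par v (Ex_sub (bdry_subset _ hv))
  rcases abs_cases (h v) with h3 | h3 <;> rw [Int.even_iff] at h2 ⊢ <;> omega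

lemma exists_notMem (D : Finset V) : ((D : Set V)ᶜ).Nonempty := by
  obtain ⟨v, hv⟩ := Infinite.exists_notMem_finset D
  exact ⟨v, by simpa using hv⟩

lemma diff_compl_cnn (hD : Cnn (D : Set V)ᶜ) : Cnn ((D : Set V) \ Cb D h)ᶜ := by
  have sub : (D : Set V)ᶜ ⊆ ((D : Set V) \ Cb D h)ᶜ := Set.compl_subset_compl.2 Set.sdiff_subset
  have key : ∀ u ∈ ((D : Set V) \ Cb D h)ᶜ, ∃ o ∈ (D : Set V)ᶜ, Con ((D : Set V) \ Cb D h)ᶜ u o := by
    intro u hu
    by_cases huD : u ∈ D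
    · have huC : u ∈ Cb D h := by
        by_contra huC
        exact hu ⟨huD, huC⟩
      obtain ⟨b, hb, hbu⟩ := huC
      obtain ⟨hbD, z, hz, hz'⟩ := mem_bdry.1 (mem_coe.1 hb)
      have h1 : Con (Cb D h) b u := clus_con (sub_clus hb hbu.left) hbu
      have h2 : Con ((D : Set V) \ Cb D h)ᶜ b u := h1.mono (fun _ _ h => h)
        (fun w hw hw' => hw'.2 hw)
      have hzD : z ∈ (D : Set V)ᶜ := by simpa using hz'
      exact ⟨z, hzD, (Con.symm' h2).step (adj_symm hz) (sub hzD)⟩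
    · exact ⟨u, by simpa using huD, Jn.refl hu⟩
  intro u hu v hv
  obtain ⟨o, ho, h1⟩ := key u hu
  obtain ⟨o', ho', h2⟩ := key v hv
  exact (h1.trans ((hD o ho o' ho').mono (fun _ _ h => h) sub)).trans h2.symm'

/-- the weak form of connected complement: off the boundary cluster -/
def Wk (D : Finset V) : Prop := ∀ h ∈ Om D, Cnn ((D : Set V) \ Cb D h)ᶜ

lemma wk_of (hD : Cnn (D : Set V)ᶜ) : Wk D := fun _ _ => diff_compl_cnn hD

/-- even domains, weak class -/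
structure WC (D : Finset V) : Prop where
  par : BdryPar D 0
  con : Wk D

lemma SC.wc (hD : SC D) : WC D := ⟨hD.par, wk_of hD.con⟩

lemma Ex_compl_cnn_w (hD : Wk D) (hh : h ∈ Om D) : Cnn (Ex D h x : Set V)ᶜ := by
  rw [coe_Ex]
  refine compl_comp_cnn (hD h hh) ?_
  obtain ⟨o, ho⟩ := exists_notMem D
  exact ⟨o, fun h' => ho h'.1⟩

lemma Ex_SC_w (hD : Wk D) (hh : h ∈ Om D) : SC (Ex D h x) := ⟨Ex_par hh, Ex_compl_cnn_w hD hh⟩

/-- the height is constant on the boundary of `Ex` -/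
lemma Ex_const_w (hD : Wk D) (hh : h ∈ Om D) {u u' : V} (hu : u ∈ bdry (Ex D h x))
    (hu' : u' ∈ bdry (Ex D h x)) : h u = h u' := by
  have hB := Bd_coe (Ex D h x)
  refine label_const' (U := (Ex D h x : Set V)) ?_ ?_ ?_ ?_ (by rw [hB]; exact hu) (by rw [hB]; exact hu')
  · refine not_adj_of_par (q := 0) fun b hb => ?_
    rw [hB] at hb
    exact Ex_par hh b hb
  · rw [coe_Ex]
    exact comp_cnn _ _
  · intro z hz z' hz'
    exact (Ex_compl_cnn_w hD hh z hz z' hz').mono (fun _ _ => adj_kng) subset_rfl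
  · intro z b c d hz hb _ hd h1 h2 _ _ _
    have e1 := (Ex_nbr hh (mem_coe.1 hb) (adj_symm h1) (by simpa using hz)).2.1
    have e2 := (Ex_nbr hh (mem_coe.1 hd) (adj_symm h2) (by simpa using hz)).2.1
    rw [e1, e2]

open Classical in
/-- the sign of `h` on the boundary of `E` -/
noncomputable def sg (E : Finset V) (h : V → ℤ) : ℤ := if ∃ v ∈ bdry E, h v = 2 then 1 else -1

lemma sg_or (E : Finset V) (h : V → ℤ) : sg E h = 1 ∨ sg E h = -1 := by
  unfold sg
  split_ifs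
  · exact Or.inl rfl
  · exact Or.inr rfl

lemma sg_sq (E : Finset V) (h : V → ℤ) : sg E h * sg E h = 1 := by
  rcases sg_or E h with h1 | h1 <;> rw [h1] <;> norm_num

lemma sg_spec_w (hD : Wk D) (hh : h ∈ Om D) (hv : v ∈ bdry (Ex D h x)) :
    h v = 2 * sg (Ex D h x) h := by
  unfold sg
  have h1 := Ex_bd hh hv
  split_ifs with h2
  · obtain ⟨u, hu, hu'⟩ := h2
    rw [Ex_const_w hD hh hv hu, hu']
    norm_num
  · push Not at h2
    have h3 := h2 v hv
    rcases abs_cases (h v) with h4 | h4 <;> omega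

/-- replace the inner part -/
noncomputable def gl (E : Finset V) (s : ℤ) (h g : V → ℤ) : V → ℤ := by
  classical exact fun v => if v ∈ E then s * (2 + g v) else h v

lemma gl_in {E : Finset V} {s : ℤ} (hv : v ∈ E) : gl E s h g v = s * (2 + g v) := by
  classical
  unfold gl
  rw [if_pos hv]

lemma gl_out {E : Finset V} {s : ℤ} (hv : v ∉ E) : gl E s h g v = h v := by
  classical
  unfold gl
  rw [if_neg hv]

/-- the inner part -/
noncomputable def inn (E : Finset V) (s : ℤ) (h : V → ℤ) : V → ℤ := by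
  classical exact fun v => if v ∈ E then s * h v - 2 else 0

lemma inn_in {E : Finset V} {s : ℤ} (hv : v ∈ E) : inn E s h v = s * h v - 2 := by
  classical
  unfold inn
  rw [if_pos hv]

lemma inn_out {E : Finset V} {s : ℤ} (hv : v ∉ E) : inn E s h v = 0 := by
  classical
  unfold inn
  rw [if_neg hv]

lemma inn_mem_w (hD : Wk D) (hh : h ∈ Om D) :
    inn (Ex D h x) (sg (Ex D h x) h) h ∈ Om (Ex D h x) := by
  have hh' := mem_Om.1 hh
  set E := Ex D h x with hE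
  have hs := sg_or E h
  rw [mem_Om]
  refine ⟨⟨fun v hv => inn_out hv, fun v hv => ?_, fun u hu v hv huv => ?_⟩, fun v hv => ?_⟩
  · rw [inn_in hv]
    have h1 := hh'.1.par v (Ex_sub hv)
    rw [Int.even_iff] at h1 ⊢
    rcases hs with hs | hs <;> rw [hs] <;> omega
  · rw [inn_in hu, inn_in hv]
    have h1 := hh'.1.step u (Ex_sub hu) v (Ex_sub hv) huv
    rcases hs with hs | hs
    · have e : sg E h * h u - 2 - (sg E h * h v - 2) = h u - h v := by
        rw [hs]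
        ring
      rw [e, h1]
    · have e : sg E h * h u - 2 - (sg E h * h v - 2) = -(h u - h v) := by
        rw [hs]
        ring
      rw [e, abs_neg, h1]
  · rw [inn_in (bdry_subset _ hv), sg_spec_w hD hh hv]
    have := sg_sq E h
    linarith

lemma gl_mem_w (hD : Wk D) (hh : h ∈ Om D) (hg : g ∈ Om (Ex D h x)) :
    gl (Ex D h x) (sg (Ex D h x) h) h g ∈ Om D := by
  have hh' := mem_Om.1 hh
  have hg' := mem_Om.1 hg
  set E := Ex D h x with hE
  have hs := sg_or E h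
  have hb : ∀ v ∈ bdry E, gl E (sg E h) h g v = h v := by
    intro v hv
    rw [gl_in (bdry_subset _ hv), hg'.2 v hv, sg_spec_w hD hh hv]
    ring
  rw [mem_Om]
  refine ⟨⟨fun v hv => ?_, fun v hv => ?_, fun u hu v hv huv => ?_⟩, fun v hv => ?_⟩
  · rw [gl_out fun h' => hv (Ex_sub h')]
    exact hh'.1.off v hv
  · by_cases hvE : v ∈ E
    · rw [gl_in hvE]
      have h1 := hg'.1.par v hvE
      rw [Int.even_iff] at h1 ⊢
      rcases hs with hs | hs <;> rw [hs] <;> omega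
    · rw [gl_out hvE]
      exact hh'.1.par v hv
  · by_cases huE : u ∈ E <;> by_cases hvE : v ∈ E
    · rw [gl_in huE, gl_in hvE]
      have h1 := hg'.1.step u huE v hvE huv
      rcases hs with hs | hs
      · have e : sg E h * (2 + g u) - sg E h * (2 + g v) = g u - g v := by
          rw [hs]
          ring
        rw [e, h1]
      · have e : sg E h * (2 + g u) - sg E h * (2 + g v) = -(g u - g v) := by
          rw [hs]
          ring
        rw [e, abs_neg, h1]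
    · rw [hb u (mem_bdry.2 ⟨huE, v, adj_symm huv, hvE⟩), gl_out hvE]
      exact hh'.1.step u hu v hv huv
    · rw [hb v (mem_bdry.2 ⟨hvE, u, huv, huE⟩), gl_out huE]
      exact hh'.1.step u hu v hv huv
    · rw [gl_out huE, gl_out hvE]
      exact hh'.1.step u hu v hv huv
  · have hvE : v ∉ E := fun h' => Ex_not_Cb h' (bdry_sub_Cb hh hv)
    rw [gl_out hvE]
    exact hh'.2 v hv

lemma gl_bd_w (hD : Wk D) (hh : h ∈ Om D) (hg : g ∈ Om (Ex D h x))
    (hv : v ∈ bdry (Ex D h x)) : gl (Ex D h x) (sg (Ex D h x) h) h g v = h v := by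
  rw [gl_in (bdry_subset _ hv), (mem_Om.1 hg).2 v hv, sg_spec_w hD hh hv]
  ring

lemma Cb_gl_w (hD : Wk D) (hh : h ∈ Om D) (hg : g ∈ Om (Ex D h x)) :
    Cb D (gl (Ex D h x) (sg (Ex D h x) h) h g) = Cb D h := by
  have out : ∀ v, v ∉ Ex D h x → (v ∈ lw D h ↔
      v ∈ lw D (gl (Ex D h x) (sg (Ex D h x) h) h g)) := by
    intro v hv
    simp only [lw, Set.mem_ofPred_eq, gl_out hv]
  refine clus_congr (fun v hv => ?_) fun u hu v huv => ?_
  · exact out v fun h' => Ex_not_Cb h' (bdry_sub_Cb hh (mem_coe.1 hv))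
  · by_cases hvE : v ∈ Ex D h x
    · have hvb : v ∈ bdry (Ex D h x) := mem_bdry.2 ⟨hvE, u, huv, fun h' => Ex_not_Cb h' hu⟩
      simp only [lw, Set.mem_ofPred_eq, gl_bd_w hD hh hg hvb]
    · exact out v hvE

lemma Ex_gl_w (hD : Wk D) (hh : h ∈ Om D) (hg : g ∈ Om (Ex D h x)) (y : V) :
    Ex D (gl (Ex D h x) (sg (Ex D h x) h) h g) y = Ex D h y := by
  ext w
  rw [mem_Ex, mem_Ex, Cb_gl_w hD hh hg]

lemma sg_gl_w (hD : Wk D) (hh : h ∈ Om D) (hg : g ∈ Om (Ex D h x)) {E' : Finset V}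
    (hE' : ∀ v ∈ bdry E', v ∈ bdry (Ex D h x) ∨ v ∉ Ex D h x) :
    sg E' (gl (Ex D h x) (sg (Ex D h x) h) h g) = sg E' h := by
  classical
  have key : (∃ v ∈ bdry E', gl (Ex D h x) (sg (Ex D h x) h) h g v = 2) ↔
      ∃ v ∈ bdry E', h v = 2 := by
    refine exists_congr fun v => and_congr_right fun hv => ?_
    rcases hE' v hv with h1 | h1
    · rw [gl_bd_w hD hh hg h1]
    · rw [gl_out h1]
  unfold sg at key ⊢
  simp only [key]

/-! ### the same for connected complement -/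

lemma Ex_compl_cnn (hD : Cnn (D : Set V)ᶜ) (hh : h ∈ Om D) : Cnn (Ex D h x : Set V)ᶜ :=
  Ex_compl_cnn_w (wk_of hD) hh

lemma Ex_SC (hD : SC D) (hh : h ∈ Om D) : SC (Ex D h x) := Ex_SC_w hD.wc.con hh

lemma Ex_const (hD : Cnn (D : Set V)ᶜ) (hh : h ∈ Om D) {u u' : V} (hu : u ∈ bdry (Ex D h x))
    (hu' : u' ∈ bdry (Ex D h x)) : h u = h u' := Ex_const_w (wk_of hD) hh hu hu'

lemma sg_spec (hD : Cnn (D : Set V)ᶜ) (hh : h ∈ Om D) (hv : v ∈ bdry (Ex D h x)) :
    h v = 2 * sg (Ex D h x) h := sg_spec_w (wk_of hD) hh hv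

lemma inn_mem (hD : Cnn (D : Set V)ᶜ) (hh : h ∈ Om D) :
    inn (Ex D h x) (sg (Ex D h x) h) h ∈ Om (Ex D h x) := inn_mem_w (wk_of hD) hh

lemma gl_mem (hD : Cnn (D : Set V)ᶜ) (hh : h ∈ Om D) (hg : g ∈ Om (Ex D h x)) :
    gl (Ex D h x) (sg (Ex D h x) h) h g ∈ Om D := gl_mem_w (wk_of hD) hh hg

lemma gl_bd (hD : Cnn (D : Set V)ᶜ) (hh : h ∈ Om D) (hg : g ∈ Om (Ex D h x))
    (hv : v ∈ bdry (Ex D h x)) : gl (Ex D h x) (sg (Ex D h x) h) h g v = h v :=
  gl_bd_w (wk_of hD) hh hg hv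

lemma Cb_gl (hD : Cnn (D : Set V)ᶜ) (hh : h ∈ Om D) (hg : g ∈ Om (Ex D h x)) :
    Cb D (gl (Ex D h x) (sg (Ex D h x) h) h g) = Cb D h := Cb_gl_w (wk_of hD) hh hg

lemma Ex_gl (hD : Cnn (D : Set V)ᶜ) (hh : h ∈ Om D) (hg : g ∈ Om (Ex D h x)) (y : V) :
    Ex D (gl (Ex D h x) (sg (Ex D h x) h) h g) y = Ex D h y := Ex_gl_w (wk_of hD) hh hg y

lemma sg_gl (hD : Cnn (D : Set V)ᶜ) (hh : h ∈ Om D) (hg : g ∈ Om (Ex D h x)) {E' : Finset V}
    (hE' : ∀ v ∈ bdry E', v ∈ bdry (Ex D h x) ∨ v ∉ Ex D h x) :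
    sg E' (gl (Ex D h x) (sg (Ex D h x) h) h g) = sg E' h := sg_gl_w (wk_of hD) hh hg hE'

end LG
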