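import Pool.Agent.Helper86.LG.Lg3

/-!
# Project DV (MP_973bc8_pr), block LG: the logarithmic bound for domains of any size

`LGS`: `E_D h_x h_z ≤ C (1 + log (N / n))` if some site of the square of radius `N` about `x` is not in `D` and
`z` is at sup distance at least `n` from `x`.
-/

open Finset RP4 DV MD

namespace LG

variable {D : Finset V} {h g : V → ℤ} {x y v z w : V}

/-- the halvings are at most logarithmic -/
lemma exists_exp (M : ℕ) (hM1 : 1 ≤ M) : ∃ A : ℝ, 0 ≤ A ∧ ∀ n N : ℕ, 1 ≤ n → n ≤ N →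
    ∃ j : ℕ, M * N ≤ n * 2 ^ j ∧ (j : ℝ) ≤ A + 2 * Real.log ((N : ℝ) / n) := by
  refine ⟨1 + 2 * Real.log M, by positivity, fun n N hn hN => ?_⟩
  have hn0 : (0 : ℝ) < n := by exact_mod_cast hn
  have hN0 : (0 : ℝ) < N := by exact_mod_cast lt_of_lt_of_le hn hN
  have hM0 : (0 : ℝ) < M := by exact_mod_cast hM1
  have hl2 : (1 / 2 : ℝ) ≤ Real.log 2 := by
    have := Real.log_two_gt_d9
    linarith
  have hl20 : (0 : ℝ) < Real.log 2 := by linarith
  have hq1 : (1 : ℝ) ≤ M * (N / n) := by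
    have h1 : (1 : ℝ) ≤ N / n := by
      rw [one_le_div hn0]
      exact_mod_cast hN
    have h2 : (1 : ℝ) ≤ M := by exact_mod_cast hM1
    nlinarith
  have hlq : 0 ≤ Real.log (M * (N / n)) := Real.log_nonneg hq1
  refine ⟨⌈Real.log (M * (N / n)) / Real.log 2⌉₊, ?_, ?_⟩
  · have h1 : Real.log (M * (N / n)) / Real.log 2 ≤ ⌈Real.log (M * (N / n)) / Real.log 2⌉₊ :=
      Nat.le_ceil _
    rw [div_le_iff₀ hl20] at h1
    have h2 : Real.log (M * (N / n)) ≤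
        Real.log ((2 : ℝ) ^ ⌈Real.log (M * (N / n)) / Real.log 2⌉₊) := by
      rw [Real.log_pow]
      exact h1
    have h3 : (M : ℝ) * (N / n) ≤ (2 : ℝ) ^ ⌈Real.log (M * (N / n)) / Real.log 2⌉₊ :=
      (Real.log_le_log_iff (by positivity) (by positivity)).1 h2
    have h4 : (M : ℝ) * N ≤ n * (2 : ℝ) ^ ⌈Real.log (M * (N / n)) / Real.log 2⌉₊ := by
      calc (M : ℝ) * N = n * (M * (N / n)) := by field_simp
        _ ≤ _ := mul_le_mul_of_nonneg_left h3 hn0.le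
    exact_mod_cast h4
  · have h1 : (⌈Real.log (M * (N / n)) / Real.log 2⌉₊ : ℝ) <
        Real.log (M * (N / n)) / Real.log 2 + 1 := Nat.ceil_lt_add_one (by positivity)
    have h2 : Real.log (M * (N / n)) / Real.log 2 ≤ 2 * Real.log (M * (N / n)) := by
      rw [div_le_iff₀ hl20]
      nlinarith
    have h3 : Real.log (M * (N / n)) = Real.log M + Real.log (N / n) :=
      Real.log_mul hM0.ne' (by positivity)
    linarith

/-- the logarithmic bound for domains of any size -/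
theorem LGS {M : ℕ} (hM1 : 1 ≤ M) (hM : Bq M) : ∃ C : ℝ, 0 ≤ C ∧ ∀ (D : Finset V), WC D →
    ∀ (x z : V) (n N : ℤ), 1 ≤ n → n ≤ N → z ∉ Sq x (n - 1) → (∃ v ∈ Sq x N, v ∉ D) →
      avg (Om D) (fun h => (h x : ℝ) * h z) ≤ C * (1 + Real.log ((N : ℝ) / n)) := by
  obtain ⟨C, hC, hlog⟩ := log_cov hM1 hM
  obtain ⟨A, hA, hexp⟩ := exists_exp M hM1
  refine ⟨12 + C * (1 + A) + 2 * C, by positivity, fun D hD x z n N hn hN hz hv => ?_⟩
  obtain ⟨n, rfl⟩ : ∃ m : ℕ, n = (m : ℤ) := ⟨n.toNat, by omega⟩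
  obtain ⟨N, rfl⟩ : ∃ m : ℕ, N = (m : ℤ) := ⟨N.toNat, by omega⟩
  have hn' : 1 ≤ n := by exact_mod_cast hn
  have hN' : n ≤ N := by exact_mod_cast hN
  obtain ⟨j, hj1, hj2⟩ := hexp n N hn' hN'
  have hj0 : (0 : ℝ) ≤ j := Nat.cast_nonneg _
  have hl : 0 ≤ Real.log ((N : ℝ) / n) := by
    refine Real.log_nonneg ?_
    rw [one_le_div (by exact_mod_cast hn')]
    exact_mod_cast hN'
  have h1 : cv D x z ≤ 4 + (8 + C * (1 + j)) := by
    refine one_step hD x z _ (by positivity) fun E hE _ _ hED => ?_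
    refine near hM x z N (hn'.trans hN') (C * (1 + j)) (by positivity) (fun E' hE' hE'' => ?_)
      E.card E le_rfl hE ?_
    · exact hlog x z n hn' hz j E' hE' (hE''.trans (Sq_mono (by exact_mod_cast hj1)))
    · obtain ⟨v, hv1, hv2⟩ := hv
      exact ⟨v, hv1, fun h' => hv2 (hED h')⟩
  have h2 : C * (1 + (j : ℝ)) ≤ C * (1 + (A + 2 * Real.log ((N : ℝ) / n))) :=
    mul_le_mul_of_nonneg_left (by linarith) hC
  have h3 : 0 ≤ C * (1 + A) * Real.log ((N : ℝ) / n) := by positivity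
  push_cast
  show cv D x z ≤ _
  nlinarith

/-- the dyadic form -/
theorem lgs {M : ℕ} (hM1 : 1 ≤ M) (hM : Bq M) : ∃ C : ℝ, 0 ≤ C ∧ ∀ n : ℕ, 1 ≤ n → ∀ j : ℕ,
    ∀ x y : V, y ∉ Sq x ((n : ℤ) - 1) → ∀ D : Finset V, WC D →
    (∃ v ∈ Sq x ((n * 2 ^ j : ℕ) : ℤ), v ∉ D) → cv D x y ≤ C * (1 + j) := by
  obtain ⟨C, hC, h⟩ := LGS hM1 hM
  refine ⟨C, hC, fun n hn j x y hy D hD hv => ?_⟩
  have hn0 : (0 : ℝ) < n := by exact_mod_cast hn
  have h1 := h D hD x y (n : ℤ) ((n * 2 ^ j : ℕ) : ℤ) (by exact_mod_cast hn)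
    (by exact_mod_cast Nat.le_mul_of_pos_right n (by positivity)) hy hv
  have h2 : ((((n * 2 ^ j : ℕ) : ℤ) : ℝ) / ((n : ℤ) : ℝ)) = 2 ^ j := by
    push_cast
    field_simp
  rw [h2, Real.log_pow] at h1
  have h3 : (j : ℝ) * Real.log 2 ≤ j := by
    have h4 : Real.log 2 ≤ 1 := by
      have := Real.log_two_lt_d9
      linarith
    calc (j : ℝ) * Real.log 2 ≤ j * 1 := mul_le_mul_of_nonneg_left h4 (Nat.cast_nonneg _)
      _ = j := mul_one _
  refine le_trans h1 (mul_le_mul_of_nonneg_left (by linarith) hC)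

end LG
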