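import Pool.Agent.Helper86.LG.Mk3
import Pool.Agent.Helper35.MD.G4b

/-!
# Project DV (MP_973bc8_pr), block LG: the logarithmic form of the macroscopic variance bound

Input: `Bq M` (the component of `x` leaves the square of radius `M ρ` with probability at most `1/2` if a
point of the square of radius `ρ` about `x` is not in the domain) and `MD.mdv`.
-/

open Finset RP4 DV MD

namespace LG

variable {D : Finset V} {h g : V → ℤ} {x y v z : V}

/-- the square of radius `n` as a finite set -/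
noncomputable def Sqf (x : V) (n : ℤ) : Finset V := Icc (x.1 - n) (x.1 + n) ×ˢ Icc (x.2 - n) (x.2 + n)

lemma mem_Sqf {n : ℤ} : v ∈ Sqf x n ↔ v ∈ Sq x n := by
  unfold Sqf Sq
  rw [mem_product, mem_Icc, mem_Icc, Set.mem_ofPred_eq, abs_le, abs_le]
  constructor
  · rintro ⟨⟨h1, h2⟩, h3, h4⟩
    exact ⟨⟨by omega, by omega⟩, by omega, by omega⟩
  · rintro ⟨⟨h1, h2⟩, h3, h4⟩
    exact ⟨⟨by omega, by omega⟩, by omega, by omega⟩

lemma card_Sqf (x : V) (n : ℕ) : (Sqf x n).card = (2 * n + 1) ^ 2 := by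
  unfold Sqf
  rw [card_product, Int.card_Icc, Int.card_Icc]
  have h1 : (x.1 + (n : ℤ) + 1 - (x.1 - n)).toNat = 2 * n + 1 := by omega
  have h2 : (x.2 + (n : ℤ) + 1 - (x.2 - n)).toNat = 2 * n + 1 := by omega
  rw [h1, h2]
  ring

/-- the Beurling input -/
def Bq (M : ℕ) : Prop := ∀ D : Finset V, SC D → ∀ x ∈ D, ∀ ρ : ℕ, 1 ≤ ρ →
  (∃ z ∈ Sq x (ρ : ℤ), z ∉ D) →
  avg (Om D) (fun h => ind (x ∈ Ex D h x ∧ ¬ ((Ex D h x : Set V) ⊆ Sq x ((M * ρ : ℕ) : ℤ)))) ≤ 1 / 2

lemma Om_abs_le (hh : h ∈ Om D) (v : V) : |h v| ≤ D.card := by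
  have hh' := mem_Om.1 hh
  by_cases hv : v ∈ D
  · obtain ⟨b, hb, h1⟩ := hh'.1.bound_bdry hv
    rwa [hh'.2 b hb, sub_zero] at h1
  · rw [hh'.1.off v hv, abs_zero]
    exact Nat.cast_nonneg _

lemma cv_off (hy : x ∉ D ∨ y ∉ D) : cv D x y = 0 := by
  unfold cv avg
  rw [sum_eq_zero, zero_div]
  intro h hh
  have hoff := (mem_Om.1 hh).1.off
  rcases hy with hy | hy
  · rw [hoff x hy]
    simp
  · rw [hoff y hy]
    simp

lemma cv_triv (D : Finset V) (x y : V) : cv D x y ≤ (D.card : ℝ) ^ 2 := by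
  unfold cv avg
  refine div_le_of_le_mul₀ (Nat.cast_nonneg _) (by positivity) ?_
  calc ∑ h ∈ Om D, (h x : ℝ) * h y ≤ ∑ _h ∈ Om D, (D.card : ℝ) ^ 2 := by
        refine sum_le_sum fun h hh => ?_
        have h1 : |(h x : ℝ)| ≤ D.card := by exact_mod_cast Om_abs_le hh x
        have h2 : |(h y : ℝ)| ≤ D.card := by exact_mod_cast Om_abs_le hh y
        calc (h x : ℝ) * h y ≤ |(h x : ℝ) * h y| := le_abs_self _
          _ = |(h x : ℝ)| * |(h y : ℝ)| := abs_mul _ _
          _ ≤ D.card * D.card := mul_le_mul h1 h2 (abs_nonneg _) (Nat.cast_nonneg _)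
          _ = (D.card : ℝ) ^ 2 := by ring
    _ = (D.card : ℝ) ^ 2 * (Om D).card := by
        rw [sum_const, nsmul_eq_mul, mul_comm]

lemma sum_pE_le_one (D : Finset V) (x : V) (P : Finset V → Prop) [DecidablePred P] :
    ∑ E ∈ D.powerset.filter P, pE D x E ≤ 1 := by
  rw [sum_pE]
  unfold avg
  refine div_le_one_of_le₀ ?_ (Nat.cast_nonneg _)
  calc ∑ h ∈ Om D, ind (x ∈ Ex D h x ∧ P (Ex D h x)) ≤ ∑ _h ∈ Om D, (1 : ℝ) :=
        sum_le_sum fun h _ => ind_le_one _
    _ = (Om D).card := by rw [sum_const, nsmul_eq_mul, mul_one]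

/-- facts about the components that occur -/
lemma pE_ne_w (hD : WC D) {E : Finset V} (h0 : pE D x E ≠ 0) :
    SC E ∧ x ∈ E ∧ E ⊆ D ∧ E.card < D.card := by
  have h1 : (OmE D x E).Nonempty := by
    rw [nonempty_iff_ne_empty]
    intro h1
    apply h0
    unfold pE
    rw [h1]
    simp
  obtain ⟨h, hh⟩ := h1
  obtain ⟨h2, h3, h4⟩ := mem_OmE.1 hh
  subst h4
  refine ⟨Ex_SC_w hD.con h2, h3, Ex_sub, card_lt_card ?_⟩
  refine ⟨Ex_sub, fun h5 => ?_⟩
  obtain ⟨b, hb, -⟩ := exists_bdry_right D (Ex_sub h3)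
  exact Ex_not_Cb (h5 (bdry_subset _ hb)) (bdry_sub_Cb h2 hb)

lemma pE_ne (hD : SC D) {E : Finset V} (h0 : pE D x E ≠ 0) :
    SC E ∧ x ∈ E ∧ E ⊆ D ∧ E.card < D.card := pE_ne_w hD.wc h0

/-- one step from the weak class to the strong class -/
theorem one_step (hD : WC D) (x y : V) (c : ℝ) (hc : 0 ≤ c)
    (hs : ∀ E : Finset V, SC E → x ∈ E → y ∈ E → E ⊆ D → cv E x y ≤ c) : cv D x y ≤ 4 + c := by
  classical
  by_cases hx : x ∈ D
  swap
  · rw [cv_off (Or.inl hx)]
    linarith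
  by_cases hy : y ∈ D
  swap
  · rw [cv_off (Or.inr hy)]
    linarith
  have h1 := cov_rec_w hD hx hy
  have h2 : ∑ E ∈ D.powerset.filter (fun E => y ∈ E), pE D x E * avg (Om E) (fun g => (g x : ℝ) * g y) ≤
      ∑ E ∈ D.powerset.filter (fun E => y ∈ E), pE D x E * c := by
    refine sum_le_sum fun E hE => ?_
    by_cases h0 : pE D x E = 0
    · rw [h0]
      simp
    · obtain ⟨e1, e2, e3, -⟩ := pE_ne_w hD h0
      exact mul_le_mul_of_nonneg_left (hs E e1 e2 (mem_filter.1 hE).2 e3) (pE_nonneg D x E)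
  have h3 : ∑ E ∈ D.powerset.filter (fun E => y ∈ E), pE D x E * c ≤ c := by
    rw [← sum_mul]
    calc _ ≤ 1 * c := mul_le_mul_of_nonneg_right (sum_pE_le_one D x _) hc
      _ = c := one_mul c
  show avg (Om D) (fun h => (h x : ℝ) * h y) ≤ _
  linarith

/-- points near the complement: `8` more than the bound for domains in the smaller square -/
theorem near {M : ℕ} (hM : Bq M) (x y : V) (ρ : ℕ) (hρ : 1 ≤ ρ) (c : ℝ) (hc : 0 ≤ c)
    (hs : ∀ E : Finset V, SC E → (E : Set V) ⊆ Sq x ((M * ρ : ℕ) : ℤ) → cv E x y ≤ c) (n : ℕ) :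
    ∀ D : Finset V, D.card ≤ n → SC D → (∃ z ∈ Sq x (ρ : ℤ), z ∉ D) → cv D x y ≤ 8 + c := by
  classical
  induction n with
  | zero =>
    intro D hn hD _
    have h1 : x ∉ D := by
      rw [card_eq_zero.1 (Nat.le_zero.1 hn)]
      simp
    rw [cv_off (Or.inl h1)]
    linarith
  | succ n ih =>
    intro D hn hD hz
    by_cases hx : x ∈ D
    swap
    · rw [cv_off (Or.inl hx)]
      linarith
    by_cases hy : y ∈ D
    swap
    · rw [cv_off (Or.inr hy)]
      linarith
    have h1 := cov_rec hD hx hy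
    have h2 : ∑ E ∈ D.powerset.filter (fun E => y ∈ E), pE D x E * avg (Om E) (fun g => (g x : ℝ) * g y) ≤
        ∑ E ∈ D.powerset.filter (fun E => y ∈ E), pE D x E * c +
        ∑ E ∈ D.powerset.filter (fun E : Finset V => ¬ ((E : Set V) ⊆ Sq x ((M * ρ : ℕ) : ℤ))), pE D x E * 8 := by
      have h3 : ∑ E ∈ (D.powerset.filter (fun E => y ∈ E)).filter
          (fun E : Finset V => ¬ ((E : Set V) ⊆ Sq x ((M * ρ : ℕ) : ℤ))), pE D x E * 8 ≤
          ∑ E ∈ D.powerset.filter (fun E : Finset V => ¬ ((E : Set V) ⊆ Sq x ((M * ρ : ℕ) : ℤ))), pE D x E * 8 := by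
        refine sum_le_sum_of_subset_of_nonneg ?_ fun E _ _ =>
          mul_nonneg (pE_nonneg _ _ _) (by norm_num)
        exact filter_subset_filter _ (filter_subset _ _)
      refine le_trans ?_ (add_le_add_right h3 _)
      rw [Finset.sum_filter (s := D.powerset.filter (fun E => y ∈ E)), ← sum_add_distrib]
      refine sum_le_sum fun E hE => ?_
      by_cases h0 : pE D x E = 0
      · rw [h0]
        simp
      · obtain ⟨e1, e2, e3, e4⟩ := pE_ne hD h0
        have e5 := pE_nonneg D x E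
        have e6 : avg (Om E) (fun g => (g x : ℝ) * g y) = cv E x y := rfl
        rw [e6]
        by_cases hE' : (E : Set V) ⊆ Sq x ((M * ρ : ℕ) : ℤ)
        · rw [if_neg (not_not.2 hE'), add_zero]
          exact mul_le_mul_of_nonneg_left (hs E e1 hE') e5
        · rw [if_pos hE', ← mul_add]
          refine mul_le_mul_of_nonneg_left ?_ e5
          obtain ⟨z, hz1, hz2⟩ := hz
          have := ih E (by omega) e1 ⟨z, hz1, fun h' => hz2 (e3 h')⟩
          linarith
    have h3 : ∑ E ∈ D.powerset.filter (fun E => y ∈ E), pE D x E * c ≤ c := by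
      rw [← sum_mul]
      calc _ ≤ 1 * c := mul_le_mul_of_nonneg_right (sum_pE_le_one D x _) hc
        _ = c := one_mul c
    have h4 : ∑ E ∈ D.powerset.filter (fun E : Finset V => ¬ ((E : Set V) ⊆ Sq x ((M * ρ : ℕ) : ℤ))),
        pE D x E * 8 ≤ 4 := by
      rw [← sum_mul, sum_pE]
      have := hM D hD x hx ρ hρ hz
      linarith
    show avg (Om D) (fun h => (h x : ℝ) * h y) ≤ _
    linarith

/-- average over a square -/
noncomputable def avgSq (x : V) (ρ : ℕ) (h : V → ℤ) : ℝ :=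
  ∑ v ∈ Sqf x ρ, (1 / ((Sqf x ρ).card : ℝ)) * (h v : ℝ)

lemma Sqf_card_pos (x : V) (ρ : ℕ) : (0 : ℝ) < ((Sqf x ρ).card : ℝ) := by
  rw [card_Sqf]
  positivity

/-- all domains: the covariance is at most the variance of the average over the small square plus a
constant -/
theorem far {M : ℕ} (hM : Bq M) (x y : V) (ρ : ℕ) (hρ : 1 ≤ ρ) (c : ℝ) (hc : 0 ≤ c)
    (hs : ∀ E : Finset V, SC E → (E : Set V) ⊆ Sq x ((M * ρ : ℕ) : ℤ) → cv E x y ≤ c) (n : ℕ) :
    ∀ D : Finset V, D.card ≤ n → SC D →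
      cv D x y ≤ avg (Om D) (fun h => avgSq x ρ h ^ 2) + 12 + c := by
  classical
  have hV : ∀ D : Finset V, 0 ≤ avg (Om D) (fun h => avgSq x ρ h ^ 2) := fun D => by
    unfold avg
    exact div_nonneg (sum_nonneg fun h _ => sq_nonneg _) (Nat.cast_nonneg _)
  induction n with
  | zero =>
    intro D hn hD
    have h1 : x ∉ D := by
      rw [card_eq_zero.1 (Nat.le_zero.1 hn)]
      simp
    rw [cv_off (Or.inl h1)]
    have := hV D
    linarith
  | succ n ih =>
    intro D hn hD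
    have hVD := hV D
    by_cases hx : x ∈ D
    swap
    · rw [cv_off (Or.inl hx)]
      linarith
    by_cases hy : y ∈ D
    swap
    · rw [cv_off (Or.inr hy)]
      linarith
    by_cases hz : ∃ z ∈ Sq x (ρ : ℤ), z ∉ D
    · have := near hM x y ρ hρ c hc hs D.card D le_rfl hD hz
      linarith
    have h1 := cov_rec hD hx hy
    have h2 : ∑ E ∈ D.powerset.filter (fun E => y ∈ E), pE D x E * avg (Om E) (fun g => (g x : ℝ) * g y) ≤
        ∑ E ∈ D.powerset.filter (fun E => y ∈ E), pE D x E * (8 + c) +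
        ∑ E ∈ D.powerset.filter (fun E => Sqf x ρ ⊆ E), pE D x E *
          (4 + avg (Om E) (fun h => avgSq x ρ h ^ 2)) := by
      have h3 : ∑ E ∈ (D.powerset.filter (fun E => y ∈ E)).filter (fun E => Sqf x ρ ⊆ E), pE D x E *
          (4 + avg (Om E) (fun h => avgSq x ρ h ^ 2)) ≤
          ∑ E ∈ D.powerset.filter (fun E => Sqf x ρ ⊆ E), pE D x E *
          (4 + avg (Om E) (fun h => avgSq x ρ h ^ 2)) := by
        refine sum_le_sum_of_subset_of_nonneg ?_ fun E _ _ =>
          mul_nonneg (pE_nonneg _ _ _) (by have := hV E; linarith)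
        exact filter_subset_filter _ (filter_subset _ _)
      refine le_trans ?_ (add_le_add_right h3 _)
      rw [Finset.sum_filter (s := D.powerset.filter (fun E => y ∈ E)), ← sum_add_distrib]
      refine sum_le_sum fun E hE => ?_
      by_cases h0 : pE D x E = 0
      · rw [h0]
        simp
      · obtain ⟨e1, e2, e3, e4⟩ := pE_ne hD h0
        have e5 := pE_nonneg D x E
        have e6 : avg (Om E) (fun g => (g x : ℝ) * g y) = cv E x y := rfl
        rw [e6]
        by_cases hE' : Sqf x ρ ⊆ E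
        · rw [if_pos hE', ← mul_add]
          refine mul_le_mul_of_nonneg_left ?_ e5
          have := ih E (by omega) e1
          linarith
        · rw [if_neg hE', add_zero]
          refine mul_le_mul_of_nonneg_left ?_ e5
          obtain ⟨z, hz1, hz2⟩ := not_subset.1 hE'
          exact near hM x y ρ hρ c hc hs E.card E le_rfl e1 ⟨z, mem_Sqf.1 hz1, hz2⟩
    have h3 : ∑ E ∈ D.powerset.filter (fun E => y ∈ E), pE D x E * (8 + c) ≤ 8 + c := by
      rw [← sum_mul]
      calc _ ≤ 1 * (8 + c) := mul_le_mul_of_nonneg_right (sum_pE_le_one D x _) (by linarith)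
        _ = 8 + c := one_mul _
    have h4 := var_rec hD x (Sqf x ρ) (fun _ => 1 / ((Sqf x ρ).card : ℝ))
    have h5 : ∑ _v ∈ Sqf x ρ, (1 / ((Sqf x ρ).card : ℝ)) = 1 := by
      rw [sum_const, nsmul_eq_mul]
      have := Sqf_card_pos x ρ
      field_simp
    rw [h5] at h4
    have h6 : ∑ E ∈ D.powerset.filter (fun E => Sqf x ρ ⊆ E), pE D x E *
          (4 + avg (Om E) (fun h => avgSq x ρ h ^ 2)) ≤ avg (Om D) (fun h => avgSq x ρ h ^ 2) := by
      refine le_trans (le_of_eq ?_) h4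
      refine sum_congr rfl fun E _ => ?_
      unfold avgSq
      ring_nf
    show avg (Om D) (fun h => (h x : ℝ) * h y) ≤ _
    linarith

end LG
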