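import Pool.Agent.Helper86.LG.Lg

/-!
# Project DV (MP_973bc8_pr), block LG: the logarithmic bound

`log_cov`: `E_D h_x h_y ≤ C (1 + j)` if `D` lies in the square of radius `n 2^j` about `x`, `|x - y| ≥ n`.
-/

open Finset RP4 DV MD

namespace LG

variable {D : Finset V} {h g : V → ℤ} {x y v z : V}

lemma avgSq_var : ∃ C : ℝ, 0 ≤ C ∧ ∀ (x : V) (r ρ : ℕ), 1 ≤ r → ∀ D : Finset V, BdryPar D 0 →
    (D : Set V) ⊆ Sq x ((2 * r : ℕ) : ℤ) →
    avg (Om D) (fun h => avgSq x ρ h ^ 2) ≤ C * (4 * (r : ℝ)) ^ 2 / (2 * (ρ : ℝ) + 1) ^ 2 := by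
  classical
  obtain ⟨C, hC, hmdv⟩ := mdv
  refine ⟨C, hC, fun x r ρ hr D hD hDr => ?_⟩
  have hcard : ((Sqf x ρ).card : ℝ) = (2 * (ρ : ℝ) + 1) ^ 2 := by
    rw [card_Sqf]
    push_cast
    ring
  have hpos := Sqf_card_pos x ρ
  have h1 := hmdv (4 * r) (by omega) D hD (by
    intro u hu v hv
    have hu' := hDr (mem_coe.2 hu)
    have hv' := hDr (mem_coe.2 hv)
    have e1 := abs_le.1 hu'.1
    have e2 := abs_le.1 hu'.2
    have e3 := abs_le.1 hv'.1
    have e4 := abs_le.1 hv'.2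
    push_cast at e1 e2 e3 e4 ⊢
    rw [abs_le, abs_le]
    omega) (fun v => if v ∈ Sqf x ρ then 1 / ((Sqf x ρ).card : ℝ) else 0) (1 / ((Sqf x ρ).card : ℝ)) (by
    intro v _
    split_ifs
    · rw [abs_of_nonneg (by positivity)]
    · rw [abs_zero]
      positivity)
  have h2 : avg (Om D) (fun h => avgSq x ρ h ^ 2) = avg (Om D) (fun h => (∑ v ∈ D,
      (if v ∈ Sqf x ρ then 1 / ((Sqf x ρ).card : ℝ) else 0) * (h v : ℝ)) ^ 2) := by
    unfold avg
    congr 1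
    refine sum_congr rfl fun h hh => ?_
    have hoff := (mem_Om.1 hh).1.off
    have e1 : ∑ v ∈ D, (if v ∈ Sqf x ρ then 1 / ((Sqf x ρ).card : ℝ) else 0) * (h v : ℝ) =
        ∑ v ∈ D ∪ Sqf x ρ, (if v ∈ Sqf x ρ then 1 / ((Sqf x ρ).card : ℝ) else 0) * (h v : ℝ) := by
      refine sum_subset subset_union_left fun v _ hv => ?_
      rw [hoff v hv]
      simp
    have e2 : ∑ v ∈ Sqf x ρ, (1 / ((Sqf x ρ).card : ℝ)) * (h v : ℝ) =
        ∑ v ∈ D ∪ Sqf x ρ, (if v ∈ Sqf x ρ then 1 / ((Sqf x ρ).card : ℝ) else 0) * (h v : ℝ) := by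
      rw [← sum_subset (s₁ := Sqf x ρ) subset_union_right fun v _ hv => by
        rw [if_neg hv, zero_mul]]
      refine sum_congr rfl fun v hv => ?_
      rw [if_pos hv]
    simp only [avgSq]
    rw [e1, e2]
  have h3 : ∑ v ∈ D, |(if v ∈ Sqf x ρ then 1 / ((Sqf x ρ).card : ℝ) else 0)| ≤ 1 := by
    calc ∑ v ∈ D, |(if v ∈ Sqf x ρ then 1 / ((Sqf x ρ).card : ℝ) else 0)|
        ≤ ∑ v ∈ D ∪ Sqf x ρ, |(if v ∈ Sqf x ρ then 1 / ((Sqf x ρ).card : ℝ) else 0)| :=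
          sum_le_sum_of_subset_of_nonneg subset_union_left fun _ _ _ => abs_nonneg _
      _ = ∑ v ∈ Sqf x ρ, 1 / ((Sqf x ρ).card : ℝ) := by
          rw [← sum_subset (s₁ := Sqf x ρ) subset_union_right fun v _ hv => by
            rw [if_neg hv, abs_zero]]
          refine sum_congr rfl fun v hv => ?_
          rw [if_pos hv, abs_of_nonneg (by positivity)]
      _ = 1 := by
          rw [sum_const, nsmul_eq_mul]
          field_simp
  rw [h2]
  refine h1.trans ?_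
  push_cast
  calc C * (4 * (r : ℝ)) ^ 2 * (1 / ((Sqf x ρ).card : ℝ) *
        ∑ v ∈ D, |(if v ∈ Sqf x ρ then 1 / ((Sqf x ρ).card : ℝ) else 0)|)
      ≤ C * (4 * (r : ℝ)) ^ 2 * (1 / ((Sqf x ρ).card : ℝ) * 1) := by
        refine mul_le_mul_of_nonneg_left ?_ (by positivity)
        exact mul_le_mul_of_nonneg_left h3 (by positivity)
    _ = C * (4 * (r : ℝ)) ^ 2 / (2 * (ρ : ℝ) + 1) ^ 2 := by
        rw [hcard]
        ring

/-- one doubling -/
theorem double {M : ℕ} (hM1 : 1 ≤ M) (hM : Bq M) : ∃ C : ℝ, 0 ≤ C ∧ ∀ (x y : V) (r : ℕ), 1 ≤ r →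
    ∀ c : ℝ, 0 ≤ c → (∀ E : Finset V, SC E → (E : Set V) ⊆ Sq x (r : ℤ) → cv E x y ≤ c) →
    ∀ D : Finset V, SC D → (D : Set V) ⊆ Sq x ((2 * r : ℕ) : ℤ) → cv D x y ≤ C + c := by
  obtain ⟨C, hC, hV⟩ := avgSq_var
  refine ⟨16 * C * (M : ℝ) ^ 2 + 12 + ((4 * (M : ℝ) + 1) ^ 2) ^ 2, by positivity, ?_⟩
  intro x y r hr c hc hs D hD hDr
  by_cases hrM : M ≤ r
  · -- the main case
    set ρ := r / M with hρ
    have hρ1 : 1 ≤ ρ := Nat.div_pos hrM (by omega)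
    have h1 : M * ρ ≤ r := Nat.mul_div_le r M
    have h2 : r < M * (ρ + 1) := by
      rw [mul_comm]
      exact Nat.lt_mul_of_div_lt (Nat.lt_succ_self _) (by omega)
    have h3 := far hM x y ρ hρ1 c hc (fun E hE hE' => hs E hE (hE'.trans (Sq_mono (by exact_mod_cast h1))))
      D.card D le_rfl hD
    have h4 := hV x r ρ hr D hD.par hDr
    have h5 : C * (4 * (r : ℝ)) ^ 2 / (2 * (ρ : ℝ) + 1) ^ 2 ≤ 16 * C * (M : ℝ) ^ 2 := by
      rw [div_le_iff₀ (by positivity)]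
      have h6 : (r : ℝ) ≤ M * (2 * (ρ : ℝ) + 1) := by
        have h7 : (r : ℝ) ≤ M * ((ρ : ℝ) + 1) := by exact_mod_cast h2.le
        have h8 : (0 : ℝ) ≤ M * ρ := by positivity
        nlinarith
      have h9 : (r : ℝ) ^ 2 ≤ (M * (2 * (ρ : ℝ) + 1)) ^ 2 :=
        pow_le_pow_left₀ (Nat.cast_nonneg _) h6 2
      calc C * (4 * (r : ℝ)) ^ 2 = 16 * C * (r : ℝ) ^ 2 := by ring
        _ ≤ 16 * C * (M * (2 * (ρ : ℝ) + 1)) ^ 2 := mul_le_mul_of_nonneg_left h9 (by positivity)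
        _ = 16 * C * (M : ℝ) ^ 2 * (2 * (ρ : ℝ) + 1) ^ 2 := by ring
    have h10 : (0 : ℝ) ≤ ((4 * (M : ℝ) + 1) ^ 2) ^ 2 := by positivity
    linarith
  · -- small squares
    have h1 := cv_triv D x y
    have h2 : D.card ≤ (4 * M + 1) ^ 2 := by
      have h3 : D ⊆ Sqf x ((2 * M : ℕ) : ℤ) := by
        intro v hv
        rw [mem_Sqf]
        exact Sq_mono (by push_cast; omega) (hDr (mem_coe.2 hv))
      have h4 := card_le_card h3
      rw [card_Sqf] at h4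
      calc D.card ≤ _ := h4
        _ = (4 * M + 1) ^ 2 := by ring
    have h3 : (D.card : ℝ) ^ 2 ≤ ((4 * (M : ℝ) + 1) ^ 2) ^ 2 := by
      have h4 : (D.card : ℝ) ≤ (4 * (M : ℝ) + 1) ^ 2 := by exact_mod_cast h2
      exact pow_le_pow_left₀ (Nat.cast_nonneg _) h4 2
    have h4 : (0 : ℝ) ≤ 16 * C * (M : ℝ) ^ 2 := by positivity
    linarith

/-- the logarithmic bound for the covariance of two points -/
theorem log_cov {M : ℕ} (hM1 : 1 ≤ M) (hM : Bq M) : ∃ C : ℝ, 0 ≤ C ∧ ∀ (x y : V) (n : ℕ), 1 ≤ n →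
    y ∉ Sq x ((n : ℤ) - 1) → ∀ (j : ℕ) (D : Finset V), SC D →
    (D : Set V) ⊆ Sq x ((n * 2 ^ j : ℕ) : ℤ) → cv D x y ≤ C * (1 + j) := by
  obtain ⟨C, hC, hd⟩ := double hM1 hM
  refine ⟨C + 81, by positivity, fun x y n hn hy j => ?_⟩
  induction j with
  | zero =>
    intro D hD hDn
    simp only [pow_zero, mul_one] at hDn
    rcases Nat.lt_or_ge n 2 with h2 | h2
    · have h1 := cv_triv D x y
      have h3 : D ⊆ Sqf x ((1 : ℕ) : ℤ) := by
        intro v hv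
        rw [mem_Sqf]
        exact Sq_mono (by push_cast; omega) (hDn (mem_coe.2 hv))
      have h4 := card_le_card h3
      rw [card_Sqf] at h4
      have h5 : (D.card : ℝ) ≤ 9 := by
        have : D.card ≤ 9 := by simpa using h4
        exact_mod_cast this
      have h6 : (D.card : ℝ) ^ 2 ≤ 81 := by
        have := pow_le_pow_left₀ (Nat.cast_nonneg D.card) h5 2
        norm_num at this
        exact this
      push_cast
      linarith
    · have h1 := hd x y (n - 1) (by omega) 0 le_rfl (fun E _ hE => by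
        rw [cv_off (Or.inr fun h' => hy (Sq_mono (by omega) (hE (mem_coe.2 h'))))]) D hD
        (hDn.trans (Sq_mono (by push_cast; omega)))
      push_cast
      linarith
  | succ j ih =>
    intro D hD hDn
    have h1 := hd x y (n * 2 ^ j) (Nat.mul_pos (by omega) (by positivity)) ((C + 81) * (1 + j))
      (by positivity) ih D hD (hDn.trans (Sq_mono (by
        have : n * 2 ^ (j + 1) = 2 * (n * 2 ^ j) := by ring
        rw [this])))
    push_cast
    linarith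

/-- the logarithmic bound for the weak class -/
theorem log_cov_w {M : ℕ} (hM1 : 1 ≤ M) (hM : Bq M) : ∃ C : ℝ, 0 ≤ C ∧ ∀ (x y : V) (n : ℕ), 1 ≤ n →
    y ∉ Sq x ((n : ℤ) - 1) → ∀ (j : ℕ) (D : Finset V), WC D →
    (D : Set V) ⊆ Sq x ((n * 2 ^ j : ℕ) : ℤ) → cv D x y ≤ C * (1 + j) := by
  obtain ⟨C, hC, hlog⟩ := log_cov hM1 hM
  refine ⟨C + 4, by positivity, fun x y n hn hy j D hD hDn => ?_⟩
  have hj : (0 : ℝ) ≤ j := Nat.cast_nonneg _
  have h1 := one_step hD x y (C * (1 + j)) (by positivity)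
    (fun E hE _ _ hED => hlog x y n hn hy j E hE (fun v hv => hDn (mem_coe.2 (hED (mem_coe.1 hv)))))
  nlinarith

end LG
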