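import Pool.Agent.Helper86.LG.Lg2

/-!
# Project DV (MP_973bc8_pr), block LG: the logarithmic bound for linear functionals

`log_sum`: sums of covariances over a square; `log_lin`: the variance of a linear functional supported in the
square of radius `r` in a domain inside the square of radius `r 2^j` is at most `C (1 + j) r^2 A sum |f|`.
-/

open Finset RP4 DV MD

namespace LG

variable {D : Finset V} {h g : V → ℤ} {x y v z w : V}

/-- sup distance -/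
def nd (x w : V) : ℕ := max (x.1 - w.1).natAbs (x.2 - w.2).natAbs

lemma mem_Sq_nd {n : ℕ} : x ∈ Sq w (n : ℤ) ↔ nd x w ≤ n := by
  unfold Sq nd
  rw [Set.mem_ofPred_eq, max_le_iff, Int.abs_eq_natAbs, Int.abs_eq_natAbs]
  constructor
  · rintro ⟨h1, h2⟩
    exact ⟨by exact_mod_cast h1, by exact_mod_cast h2⟩
  · rintro ⟨h1, h2⟩
    exact ⟨by exact_mod_cast h1, by exact_mod_cast h2⟩

lemma nd_comm (x w : V) : nd x w = nd w x := by
  unfold nd
  congr 1 <;> rw [← Int.natAbs_neg, neg_sub]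

lemma nd_pos (h : x ≠ w) : 1 ≤ nd x w := by
  unfold nd
  by_contra hc
  push Not at hc
  apply h
  ext <;> omega

open Classical in
/-- number of halvings -/
noncomputable def hv (r n : ℕ) : ℕ := ((range r).filter (fun k => n * 2 ^ k < r)).card

lemma hv_spec (r n : ℕ) (hn : 1 ≤ n) : r ≤ n * 2 ^ (hv r n) := by
  classical
  by_contra hc
  push Not at hc
  have h1 : range (hv r n + 1) ⊆ (range r).filter (fun k => n * 2 ^ k < r) := by
    intro k hk
    have hk' : k ≤ hv r n := Nat.lt_succ_iff.1 (mem_range.1 hk)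
    have h2 : n * 2 ^ k < r := lt_of_le_of_lt (Nat.mul_le_mul_left n (Nat.pow_le_pow_right (by norm_num) hk')) hc
    refine mem_filter.2 ⟨mem_range.2 ?_, h2⟩
    calc k < 2 ^ k := Nat.lt_two_pow_self
      _ = 1 * 2 ^ k := (one_mul _).symm
      _ ≤ n * 2 ^ k := Nat.mul_le_mul_right _ hn
      _ < r := h2
  have h3 := card_le_card h1
  rw [card_range] at h3
  unfold hv at h3
  omega

/-- the halvings summed over a square -/
lemma sum_hv (s : Finset V) (w : V) (r : ℕ) (hs : w ∉ s) :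
    (∑ x ∈ s, (hv r (nd x w) : ℝ)) ≤ 11 * (r : ℝ) ^ 2 := by
  classical
  have h1 : ∀ x, (hv r (nd x w) : ℝ) = ∑ k ∈ range r, (if nd x w * 2 ^ k < r then (1 : ℝ) else 0) := by
    intro x
    unfold hv
    rw [Finset.sum_ite, sum_const_zero, add_zero, sum_const, nsmul_eq_mul, mul_one]
  simp only [h1]
  rw [sum_comm]
  have h2 : ∀ k ∈ range r, ∑ x ∈ s, (if nd x w * 2 ^ k < r then (1 : ℝ) else 0) ≤
      8 * (r : ℝ) ^ 2 * (1 / 4) ^ k := by
    intro k _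
    have e1 : ∑ x ∈ s, (if nd x w * 2 ^ k < r then (1 : ℝ) else 0) =
        ((s.filter (fun x => nd x w * 2 ^ k < r)).card : ℝ) := by
      rw [Finset.sum_ite, sum_const_zero, add_zero, sum_const, nsmul_eq_mul, mul_one]
    rw [e1]
    have e2 : (s.filter (fun x => nd x w * 2 ^ k < r)) ⊆ (Sqf w ((r / 2 ^ k : ℕ) : ℤ)).erase w := by
      intro x hx
      obtain ⟨hx1, hx2⟩ := mem_filter.1 hx
      refine mem_erase.2 ⟨fun h' => hs (h' ▸ hx1), ?_⟩
      rw [mem_Sqf, mem_Sq_nd]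
      exact (Nat.le_div_iff_mul_le (by positivity)).2 hx2.le
    have e3 := card_le_card e2
    have e4 : w ∈ Sqf w ((r / 2 ^ k : ℕ) : ℤ) := by
      rw [mem_Sqf, mem_Sq_nd]
      simp [nd]
    rw [card_erase_of_mem e4, card_Sqf] at e3
    have e5 : (2 * (r / 2 ^ k) + 1) ^ 2 - 1 ≤ 8 * (r / 2 ^ k) ^ 2 := by
      obtain ⟨m, hm⟩ : ∃ m, m = r / 2 ^ k := ⟨_, rfl⟩
      rw [← hm]
      rcases Nat.eq_zero_or_pos m with h0 | h0
      · rw [h0]
        norm_num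
      · have : m ≤ m ^ 2 := Nat.le_self_pow (by norm_num) m
        have h3 : (2 * m + 1) ^ 2 = 4 * m ^ 2 + 4 * m + 1 := by ring
        omega
    have e6 : (((r / 2 ^ k : ℕ) : ℝ)) ≤ (r : ℝ) / 2 ^ k := by
      have := @Nat.cast_div_le ℝ _ _ _ r (2 ^ k)
      push_cast at this
      exact this
    calc ((s.filter (fun x => nd x w * 2 ^ k < r)).card : ℝ) ≤ ((8 * (r / 2 ^ k) ^ 2 : ℕ) : ℝ) := by
          exact_mod_cast e3.trans e5
      _ = 8 * (((r / 2 ^ k : ℕ) : ℝ)) ^ 2 := by push_cast; ring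
      _ ≤ 8 * ((r : ℝ) / 2 ^ k) ^ 2 := by gcongr
      _ = 8 * (r : ℝ) ^ 2 * (1 / 4) ^ k := by
          rw [div_pow, ← pow_mul, mul_comm k 2, pow_mul, one_div, inv_pow]
          norm_num
          ring
  refine (sum_le_sum h2).trans ?_
  rw [← mul_sum]
  have h3 : ∑ k ∈ range r, (1 / 4 : ℝ) ^ k ≤ 4 / 3 := by
    have h4 := geom_sum_eq (by norm_num : (1 / 4 : ℝ) ≠ 1) r
    rw [h4]
    have h5 : (0 : ℝ) ≤ (1 / 4) ^ r := by positivity
    have h6 : ((1 / 4 : ℝ) ^ r - 1) / (1 / 4 - 1) = (4 / 3) * (1 - (1 / 4) ^ r) := by ring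
    rw [h6]
    linarith
  have h7 : (0 : ℝ) ≤ 8 * (r : ℝ) ^ 2 := by positivity
  nlinarith [sq_nonneg (r : ℝ)]

lemma cv_symm (D : Finset V) (x y : V) : cv D x y = cv D y x := by
  unfold cv
  congr 1
  funext h
  ring

/-- the variance at a point by the covariance with a neighbour -/
lemma cv_self (hD : BdryPar D 0) (w : V) : cv D w w ≤ 2 * cv D w (w.1 + 1, w.2) + 1 := by
  have hcv := cv_nonneg D w (w.1 + 1, w.2)
  have hne := Om_nonempty hD
  by_cases hw : w ∈ D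
  swap
  · rw [cv_off (Or.inl hw)]
    linarith
  by_cases hw' : ((w.1 + 1, w.2) : V) ∈ D
  · have h1 : cv D w w ≤ avg (Om D) (fun h => 2 * ((h w : ℝ) * h (w.1 + 1, w.2)) + 1) := by
      unfold cv avg
      refine div_le_div_of_nonneg_right (sum_le_sum fun h hh => ?_) (Nat.cast_nonneg _)
      have h2 := (mem_Om.1 hh).1.step w hw _ hw' (adj_r w)
      have h3 : ((h w : ℝ) - h (w.1 + 1, w.2)) ^ 2 = 1 := by
        rw [← sq_abs]
        have : |(h w : ℝ) - h (w.1 + 1, w.2)| = 1 := by exact_mod_cast h2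
        rw [this]
        norm_num
      nlinarith [sq_nonneg (h (w.1 + 1, w.2) : ℝ)]
    refine h1.trans (le_of_eq ?_)
    rw [avg_add, avg_mul_left, avg_const' hne]
    rfl
  · have hwb : w ∈ bdry D := mem_bdry.2 ⟨hw, _, adj_symm (adj_r w), hw'⟩
    have h1 : cv D w w = 0 := by
      unfold cv avg
      rw [sum_eq_zero, zero_div]
      intro h hh
      rw [(mem_Om.1 hh).2 w hwb]
      simp
    rw [h1]
    linarith

/-- sums of covariances over a square -/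
theorem log_sum_w {M : ℕ} (hM1 : 1 ≤ M) (hM : Bq M) : ∃ C : ℝ, 0 ≤ C ∧ ∀ (z : V) (r : ℕ), 1 ≤ r →
    ∀ (j : ℕ) (D : Finset V), WC D → (D : Set V) ⊆ Sq z ((r * 2 ^ j : ℕ) : ℤ) → ∀ w ∈ Sq z (r : ℤ),
      ∑ x ∈ Sqf z r, cv D x w ≤ C * (1 + j) * (r : ℝ) ^ 2 := by
  classical
  obtain ⟨C, hC, hlog⟩ := log_cov_w hM1 hM
  refine ⟨37 * C + 1, by positivity, fun z r hr j D hD hDz w hw => ?_⟩
  -- the domain in squares about `w`
  have hDw : (D : Set V) ⊆ Sq w ((r * 2 ^ (j + 1) : ℕ) : ℤ) := by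
    intro v hv
    have h1 := mem_Sq_nd.1 (hDz hv)
    have h2 := mem_Sq_nd.1 hw
    rw [mem_Sq_nd]
    have h3 : nd v w ≤ nd v z + nd w z := by
      unfold nd
      omega
    have h4 : r * 2 ^ (j + 1) = r * 2 ^ j + r * 2 ^ j := by ring
    have h5 : r ≤ r * 2 ^ j := Nat.le_mul_of_pos_right _ (by positivity)
    omega
  have hr1 : (1 : ℝ) ≤ r := by exact_mod_cast hr
  have hj0 : (0 : ℝ) ≤ j := Nat.cast_nonneg _
  -- a point different from `w`
  have hpt : ∀ x, x ≠ w → cv D x w ≤ C * (2 + j) + C * (hv r (nd x w) : ℝ) := by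
    intro x hx
    have hn := nd_pos hx
    rw [cv_symm]
    have h1 := hlog w x (nd x w) hn (by
      have h2 : ((nd x w : ℕ) : ℤ) - 1 = ((nd x w - 1 : ℕ) : ℤ) := by omega
      rw [h2, mem_Sq_nd]
      omega) (j + 1 + hv r (nd x w)) D hD (hDw.trans (Sq_mono (by
        have h3 := hv_spec r (nd x w) hn
        have h4 : r * 2 ^ (j + 1) ≤ nd x w * 2 ^ (j + 1 + hv r (nd x w)) := by
          calc r * 2 ^ (j + 1) ≤ (nd x w * 2 ^ (hv r (nd x w))) * 2 ^ (j + 1) :=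
                Nat.mul_le_mul_right _ h3
            _ = nd x w * 2 ^ (j + 1 + hv r (nd x w)) := by
                rw [mul_assoc, ← pow_add, add_comm (hv r (nd x w))]
        exact_mod_cast h4)))
    push_cast at h1
    linarith
  -- the point `w`
  have hww : cv D w w ≤ 2 * (C * (2 + j + r)) + 1 := by
    have h1 := cv_self hD.par w
    have h2 := hpt (w.1 + 1, w.2) (by
      intro h'
      have := congrArg Prod.fst h'
      simp at this)
    rw [cv_symm] at h2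
    have h3 : (hv r (nd (w.1 + 1, w.2) w) : ℝ) ≤ r := by
      unfold hv
      have h4 := card_le_card (filter_subset (fun k => nd (w.1 + 1, w.2) w * 2 ^ k < r) (range r))
      rw [card_range] at h4
      exact_mod_cast h4
    have h5 : C * (hv r (nd (w.1 + 1, w.2) w) : ℝ) ≤ C * r := mul_le_mul_of_nonneg_left h3 hC
    linarith
  have hwm : w ∈ Sqf z r := mem_Sqf.2 hw
  rw [← Finset.add_sum_erase _ _ hwm]
  have h1 : ∑ x ∈ (Sqf z r).erase w, cv D x w ≤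
      ∑ x ∈ (Sqf z r).erase w, (C * (2 + j) + C * (hv r (nd x w) : ℝ)) :=
    sum_le_sum fun x hx => hpt x (mem_erase.1 hx).1
  rw [sum_add_distrib, sum_const, nsmul_eq_mul, ← mul_sum] at h1
  have h2 := sum_hv ((Sqf z r).erase w) w r (notMem_erase _ _)
  have h3 : (((Sqf z r).erase w).card : ℝ) ≤ 8 * (r : ℝ) ^ 2 := by
    rw [card_erase_of_mem hwm, card_Sqf]
    have h4 : (2 * r + 1) ^ 2 - 1 ≤ 8 * r ^ 2 := by
      have : r ≤ r ^ 2 := Nat.le_self_pow (by norm_num) r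
      have h3 : (2 * r + 1) ^ 2 = 4 * r ^ 2 + 4 * r + 1 := by ring
      omega
    exact_mod_cast h4
  have h4 : (((Sqf z r).erase w).card : ℝ) * (C * (2 + j)) ≤ 8 * (r : ℝ) ^ 2 * (C * (2 + j)) :=
    mul_le_mul_of_nonneg_right h3 (by positivity)
  have h5 : C * ∑ x ∈ (Sqf z r).erase w, (hv r (nd x w) : ℝ) ≤ C * (11 * (r : ℝ) ^ 2) :=
    mul_le_mul_of_nonneg_left h2 hC
  have hr2 : (1 : ℝ) ≤ (r : ℝ) ^ 2 := by nlinarith
  have hrr : (r : ℝ) ≤ (r : ℝ) ^ 2 := by nlinarith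
  have h6 : C * (2 + j + r) ≤ C * ((2 + j + 1) * (r : ℝ) ^ 2) := by
    refine mul_le_mul_of_nonneg_left ?_ hC
    nlinarith
  have h7 : 0 ≤ C * (r : ℝ) ^ 2 := by positivity
  have h8 : 0 ≤ C * (r : ℝ) ^ 2 * j := by positivity
  have h9 : (0 : ℝ) ≤ j * (r : ℝ) ^ 2 := by positivity
  nlinarith

/-- the logarithmic bound for linear functionals -/
theorem log_lin_w {M : ℕ} (hM1 : 1 ≤ M) (hM : Bq M) : ∃ C : ℝ, 0 ≤ C ∧ ∀ (z : V) (r : ℕ), 1 ≤ r →
    ∀ (j : ℕ) (D : Finset V), WC D → (D : Set V) ⊆ Sq z ((r * 2 ^ j : ℕ) : ℤ) →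
    ∀ (f : V → ℝ) (A : ℝ), (∀ v ∈ Sqf z r, |f v| ≤ A) →
      avg (Om D) (fun h => (∑ v ∈ Sqf z r, f v * (h v : ℝ)) ^ 2) ≤
        C * (1 + j) * (r : ℝ) ^ 2 * (A * ∑ v ∈ Sqf z r, |f v|) := by
  obtain ⟨C, hC, hs⟩ := log_sum_w hM1 hM
  refine ⟨C, hC, fun z r hr j D hD hDz f A hA => ?_⟩
  have h1 : avg (Om D) (fun h => (∑ v ∈ Sqf z r, f v * (h v : ℝ)) ^ 2) =
      ∑ w ∈ Sqf z r, ∑ x ∈ Sqf z r, f x * f w * cv D x w := by
    have h2 : (fun h : V → ℤ => (∑ v ∈ Sqf z r, f v * (h v : ℝ)) ^ 2) =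
        fun h => ∑ w ∈ Sqf z r, ∑ x ∈ Sqf z r, f x * f w * ((h x : ℝ) * h w) := by
      funext h
      rw [pow_two, Finset.sum_mul_sum, Finset.sum_comm]
      exact sum_congr rfl fun w _ => sum_congr rfl fun x _ => by ring
    rw [h2]
    unfold avg cv avg
    rw [sum_comm, sum_div]
    refine sum_congr rfl fun w _ => ?_
    rw [sum_comm, sum_div]
    refine sum_congr rfl fun x _ => ?_
    rw [← mul_sum, mul_div_assoc]
  rw [h1]
  calc ∑ w ∈ Sqf z r, ∑ x ∈ Sqf z r, f x * f w * cv D x w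
      ≤ ∑ w ∈ Sqf z r, A * |f w| * (C * (1 + j) * (r : ℝ) ^ 2) := by
        refine sum_le_sum fun w hw => ?_
        have h2 := hs z r hr j D hD hDz w (mem_Sqf.1 hw)
        calc ∑ x ∈ Sqf z r, f x * f w * cv D x w ≤ ∑ x ∈ Sqf z r, A * |f w| * cv D x w := by
              refine sum_le_sum fun x hx => mul_le_mul_of_nonneg_right ?_ (cv_nonneg D x w)
              calc f x * f w ≤ |f x * f w| := le_abs_self _
                _ = |f x| * |f w| := abs_mul _ _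
                _ ≤ A * |f w| := mul_le_mul_of_nonneg_right (hA x hx) (abs_nonneg _)
          _ = A * |f w| * ∑ x ∈ Sqf z r, cv D x w := by rw [mul_sum]
          _ ≤ A * |f w| * (C * (1 + j) * (r : ℝ) ^ 2) := by
              refine mul_le_mul_of_nonneg_left h2 ?_
              exact mul_nonneg ((abs_nonneg _).trans (hA w hw)) (abs_nonneg _)
    _ = C * (1 + j) * (r : ℝ) ^ 2 * (A * ∑ v ∈ Sqf z r, |f v|) := by
        rw [← sum_mul, ← mul_sum]
        ring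

/-! ### the same for the strong class -/

theorem log_sum {M : ℕ} (hM1 : 1 ≤ M) (hM : Bq M) : ∃ C : ℝ, 0 ≤ C ∧ ∀ (z : V) (r : ℕ), 1 ≤ r →
    ∀ (j : ℕ) (D : Finset V), SC D → (D : Set V) ⊆ Sq z ((r * 2 ^ j : ℕ) : ℤ) → ∀ w ∈ Sq z (r : ℤ),
      ∑ x ∈ Sqf z r, cv D x w ≤ C * (1 + j) * (r : ℝ) ^ 2 := by
  obtain ⟨C, hC, hs⟩ := log_sum_w hM1 hM
  exact ⟨C, hC, fun z r hr j D hD => hs z r hr j D hD.wc⟩

theorem log_lin {M : ℕ} (hM1 : 1 ≤ M) (hM : Bq M) : ∃ C : ℝ, 0 ≤ C ∧ ∀ (z : V) (r : ℕ), 1 ≤ r →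
    ∀ (j : ℕ) (D : Finset V), SC D → (D : Set V) ⊆ Sq z ((r * 2 ^ j : ℕ) : ℤ) →
    ∀ (f : V → ℝ) (A : ℝ), (∀ v ∈ Sqf z r, |f v| ≤ A) →
      avg (Om D) (fun h => (∑ v ∈ Sqf z r, f v * (h v : ℝ)) ^ 2) ≤
        C * (1 + j) * (r : ℝ) ^ 2 * (A * ∑ v ∈ Sqf z r, |f v|) := by
  obtain ⟨C, hC, hs⟩ := log_lin_w hM1 hM
  exact ⟨C, hC, fun z r hr j D hD => hs z r hr j D hD.wc⟩

end LG
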