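import Pool.Agent.Helper86.LG.Mk

/-!
# Project DV (MP_973bc8_pr), block LG: the Markov identity and the recursion for covariances
-/

open Finset RP4 DV

namespace LG

variable {D : Finset V} {h g : V → ℤ} {x y v z : V}

open Classical in
/-- indicator -/
noncomputable def ind (p : Prop) : ℝ := if p then 1 else 0

lemma ind_true {p : Prop} (hp : p) : ind p = 1 := if_pos hp
lemma ind_false {p : Prop} (hp : ¬ p) : ind p = 0 := if_neg hp
lemma ind_nonneg (p : Prop) : 0 ≤ ind p := by
  unfold ind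
  split_ifs <;> norm_num
lemma ind_le_one (p : Prop) : ind p ≤ 1 := by
  unfold ind
  split_ifs <;> norm_num

open Classical in
/-- the functions with component `E` of `x` off the boundary cluster -/
noncomputable def OmE (D : Finset V) (x : V) (E : Finset V) : Finset (V → ℤ) :=
  (Om D).filter (fun h => x ∈ Ex D h x ∧ Ex D h x = E)

lemma mem_OmE {E : Finset V} : h ∈ OmE D x E ↔ h ∈ Om D ∧ x ∈ Ex D h x ∧ Ex D h x = E := by
  classical
  unfold OmE
  rw [mem_filter]

/-- Markov step -/
theorem markov_w (hD : WC D) (x : V) (E : Finset V) (F : (V → ℤ) → ℝ) :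
    ∑ h ∈ OmE D x E, F h = ∑ h ∈ OmE D x E, avg (Om E) (fun g => F (gl E (sg E h) h g)) := by
  classical
  rcases (OmE D x E).eq_empty_or_nonempty with h0 | ⟨h0, hh0⟩
  · rw [h0, sum_empty, sum_empty]
  have hE : SC E := by
    obtain ⟨h1, -, h2⟩ := mem_OmE.1 hh0
    rw [← h2]
    exact Ex_SC_w hD.con h1
  have hN : ((Om E).card : ℝ) ≠ 0 := by
    exact_mod_cast (Om_nonempty hE.par).card_pos.ne'
  have key : ∑ q ∈ OmE D x E ×ˢ Om E, F (gl E (sg E q.1) q.1 q.2) =
      ∑ q ∈ OmE D x E ×ˢ Om E, F q.1 := by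
    have hsg : ∀ h ∈ OmE D x E, ∀ g ∈ Om E, sg E (gl E (sg E h) h g) = sg E h := by
      intro h hh g hg
      obtain ⟨h1, -, h2⟩ := mem_OmE.1 hh
      rw [← h2] at hg ⊢
      exact sg_gl_w hD.con h1 hg fun v hv => Or.inl hv
    have hmem : ∀ h ∈ OmE D x E, ∀ g ∈ Om E, gl E (sg E h) h g ∈ OmE D x E := by
      intro h hh g hg
      obtain ⟨h1, h3, h2⟩ := mem_OmE.1 hh
      rw [← h2] at hg
      have e1 := Ex_gl_w hD.con h1 hg x
      rw [mem_OmE]
      rw [← h2]
      refine ⟨gl_mem_w hD.con h1 hg, ?_, e1⟩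
      rw [e1]
      exact h3
    refine Finset.sum_nbij' (fun q => (gl E (sg E q.1) q.1 q.2, inn E (sg E q.1) q.1))
      (fun q => (gl E (sg E q.1) q.1 q.2, inn E (sg E q.1) q.1)) ?_ ?_ ?_ ?_ ?_
    · rintro ⟨h, g⟩ hq
      obtain ⟨hh, hg⟩ := mem_product.1 hq
      refine mem_product.2 ⟨hmem h hh g hg, ?_⟩
      obtain ⟨h1, -, h2⟩ := mem_OmE.1 hh
      have := inn_mem_w (x := x) hD.con h1
      rw [h2] at this
      exact this
    · rintro ⟨h, g⟩ hq
      obtain ⟨hh, hg⟩ := mem_product.1 hq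
      refine mem_product.2 ⟨hmem h hh g hg, ?_⟩
      obtain ⟨h1, -, h2⟩ := mem_OmE.1 hh
      have := inn_mem_w (x := x) hD.con h1
      rw [h2] at this
      exact this
    · rintro ⟨h, g⟩ hq
      obtain ⟨hh, hg⟩ := mem_product.1 hq
      simp only at hh hg ⊢
      rw [hsg h hh g hg]
      have hs := sg_sq E h
      have hoff := (mem_Om.1 hg).1.off
      refine Prod.ext ?_ ?_
      · funext v
        by_cases hv : v ∈ E
        · simp only [gl_in hv, inn_in hv]
          linear_combination h v * hs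
        · simp only [gl_out hv]
      · funext v
        by_cases hv : v ∈ E
        · simp only [inn_in hv, gl_in hv]
          linear_combination (2 + g v) * hs
        · simp only [inn_out hv, hoff v hv]
    · rintro ⟨h, g⟩ hq
      obtain ⟨hh, hg⟩ := mem_product.1 hq
      simp only at hh hg ⊢
      rw [hsg h hh g hg]
      have hs := sg_sq E h
      have hoff := (mem_Om.1 hg).1.off
      refine Prod.ext ?_ ?_
      · funext v
        by_cases hv : v ∈ E
        · simp only [gl_in hv, inn_in hv]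
          linear_combination h v * hs
        · simp only [gl_out hv]
      · funext v
        by_cases hv : v ∈ E
        · simp only [inn_in hv, gl_in hv]
          linear_combination (2 + g v) * hs
        · simp only [inn_out hv, hoff v hv]
    · rintro ⟨h, g⟩ hq
      rfl
  rw [Finset.sum_product, Finset.sum_product] at key
  simp only [sum_const, nsmul_eq_mul] at key
  unfold avg
  rw [← Finset.sum_div, key, ← Finset.mul_sum, mul_div_cancel_left₀ _ hN]

lemma avg_Om_zero (E : Finset V) (v : V) : avg (Om E) (fun g => (g v : ℝ)) = 0 := by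
  have h1 := avg_neg_Om (D := E) (fun g => (g v : ℝ))
  have h2 : avg (Om E) (fun g => (((-g) v : ℤ) : ℝ)) = -avg (Om E) (fun g => (g v : ℝ)) := by
    unfold avg
    simp only [Pi.neg_apply, Int.cast_neg, sum_neg_distrib, neg_div]
  simp only [Pi.neg_apply] at h1 h2
  linarith

lemma avg_add (S : Finset (V → ℤ)) (F G : (V → ℤ) → ℝ) :
    avg S (fun g => F g + G g) = avg S F + avg S G := by
  unfold avg
  rw [sum_add_distrib, add_div]

lemma avg_mul_left (S : Finset (V → ℤ)) (c : ℝ) (F : (V → ℤ) → ℝ) :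
    avg S (fun g => c * F g) = c * avg S F := by
  unfold avg
  rw [← mul_sum, mul_div_assoc]

lemma avg_const' {S : Finset (V → ℤ)} (hS : S.Nonempty) (c : ℝ) : avg S (fun _ => c) = c := by
  have h1 : (S.card : ℝ) ≠ 0 := by exact_mod_cast hS.card_pos.ne'
  unfold avg
  rw [sum_const, nsmul_eq_mul]
  field_simp

/-- the conditional mean of `h x` given the outside of its component -/
noncomputable def mu1 (D : Finset V) (x : V) (h : V → ℤ) : ℝ := by
  classical exact if x ∈ Ex D h x then 2 * (sg (Ex D h x) h : ℝ) else (h x : ℝ)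

lemma mu1_in (hx : x ∈ Ex D h x) : mu1 D x h = 2 * (sg (Ex D h x) h : ℝ) := by
  classical
  unfold mu1
  rw [if_pos hx]

lemma mu1_out (hx : x ∉ Ex D h x) : mu1 D x h = (h x : ℝ) := by
  classical
  unfold mu1
  rw [if_neg hx]

lemma abs_mu1 (hx : x ∈ D) : |mu1 D x h| ≤ 2 := by
  by_cases hxE : x ∈ Ex D h x
  · rw [mu1_in hxE]
    rcases sg_or (Ex D h x) h with h1 | h1 <;> rw [h1] <;> norm_num
  · rw [mu1_out hxE]
    have hC : x ∈ Cb D h := by
      by_contra hC
      exact hxE (self_mem_Ex hx hC)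
    have h1 : |(h x : ℝ)| ≤ 1 := by exact_mod_cast Cb_low hC
    linarith

/-- partition according to the component of `x` -/
lemma sum_fiber (D : Finset V) (x : V) (F : (V → ℤ) → ℝ) :
    ∑ h ∈ Om D, F h = ∑ E ∈ D.powerset, ∑ h ∈ OmE D x E, F h +
      ∑ h ∈ Om D, ind (x ∉ Ex D h x) * F h := by
  classical
  have h1 : ∑ E ∈ D.powerset, ∑ h ∈ OmE D x E, F h =
      ∑ h ∈ (Om D).filter (fun h => x ∈ Ex D h x), F h := by
    have h2 := Finset.sum_fiberwise_of_maps_to (s := (Om D).filter (fun h => x ∈ Ex D h x))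
      (t := D.powerset) (g := fun h => Ex D h x) (fun h _ => mem_powerset.2 Ex_sub) F
    rw [← h2]
    refine sum_congr rfl fun E _ => ?_
    unfold OmE
    rw [Finset.filter_filter]
  rw [h1, ← Finset.sum_filter_add_sum_filter_not (Om D) (fun h => x ∈ Ex D h x)]
  congr 1
  rw [Finset.sum_filter]
  refine sum_congr rfl fun h _ => ?_
  by_cases hx : x ∈ Ex D h x
  · rw [if_neg (not_not.2 hx), ind_false (not_not.2 hx), zero_mul]
  · rw [if_pos hx, ind_true hx, one_mul]

/-- resampling the component of `x` in `∑ G h * h x` -/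
lemma resample_w (hD : WC D) (x : V) (G : (V → ℤ) → ℝ)
    (hG : ∀ h ∈ Om D, x ∈ Ex D h x → ∀ g ∈ Om (Ex D h x),
      G (gl (Ex D h x) (sg (Ex D h x) h) h g) = G h) :
    ∑ h ∈ Om D, G h * (h x : ℝ) = ∑ h ∈ Om D, G h * mu1 D x h := by
  classical
  rw [sum_fiber D x, sum_fiber D x (fun h => G h * mu1 D x h)]
  congr 1
  · refine sum_congr rfl fun E _ => ?_
    rw [markov_w hD x E]
    refine sum_congr rfl fun h hh => ?_
    obtain ⟨h1, h2, h3⟩ := mem_OmE.1 hh
    subst h3
    have hne := Om_nonempty (Ex_SC_w (x := x) hD.con h1).par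
    have e1 : avg (Om (Ex D h x)) (fun g => G (gl (Ex D h x) (sg (Ex D h x) h) h g) *
        ((gl (Ex D h x) (sg (Ex D h x) h) h g x : ℤ) : ℝ)) =
        avg (Om (Ex D h x)) (fun g => G h * (2 * (sg (Ex D h x) h : ℝ)) +
          (G h * (sg (Ex D h x) h : ℝ)) * (g x : ℝ)) := by
      unfold avg
      congr 1
      refine sum_congr rfl fun g hg => ?_
      simp only [hG h h1 h2 g hg, gl_in h2]
      push_cast
      ring
    rw [e1, avg_add, avg_const' hne, avg_mul_left, avg_Om_zero, mu1_in h2]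
    ring
  · refine sum_congr rfl fun h _ => ?_
    by_cases hx : x ∈ Ex D h x
    · rw [ind_false (not_not.2 hx), zero_mul, zero_mul]
    · rw [mu1_out hx]

/-- the probability that the component of `x` is `E` -/
noncomputable def pE (D : Finset V) (x : V) (E : Finset V) : ℝ := (OmE D x E).card / (Om D).card

lemma pE_nonneg (D : Finset V) (x : V) (E : Finset V) : 0 ≤ pE D x E := by
  unfold pE
  positivity

/-- contribution of the pairs in different components -/
lemma cross_le_w (hD : WC D) (hx : x ∈ D) (hy : y ∈ D) :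
    ∑ h ∈ Om D, ind (y ∉ Ex D h x) * ((h x : ℝ) * h y) ≤
      4 * ∑ h ∈ Om D, ind (y ∉ Ex D h x) := by
  classical
  have s1 : ∑ h ∈ Om D, ind (y ∉ Ex D h x) * ((h x : ℝ) * h y) =
      ∑ h ∈ Om D, (ind (y ∉ Ex D h x) * (h y : ℝ)) * mu1 D x h := by
    rw [← resample_w hD x (fun h => ind (y ∉ Ex D h x) * (h y : ℝ))]
    · exact sum_congr rfl fun h _ => by ring
    · intro h hh hxE g hg
      rw [Ex_gl_w hD.con hh hg x]
      by_cases hyE : y ∈ Ex D h x
      · rw [ind_false (not_not.2 hyE), zero_mul, zero_mul]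
      · rw [gl_out hyE]
  have s2 : ∑ h ∈ Om D, (ind (y ∉ Ex D h x) * (h y : ℝ)) * mu1 D x h =
      ∑ h ∈ Om D, (ind (y ∉ Ex D h x) * mu1 D x h) * mu1 D y h := by
    rw [← resample_w hD y (fun h => ind (y ∉ Ex D h x) * mu1 D x h)]
    · exact sum_congr rfl fun h _ => by ring
    · intro h hh hyE g hg
      rw [Ex_gl_w hD.con hh hg x]
      by_cases hyx : y ∈ Ex D h x
      · rw [ind_false (not_not.2 hyx), zero_mul, zero_mul]
      · congr 1
        have hdis : ∀ v ∈ Ex D h x, v ∉ Ex D h y := by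
          intro v hv hv'
          have e1 := Ex_eq_of_mem hv
          have e2 := Ex_eq_of_mem hv'
          apply hyx
          rw [← e1, e2]
          exact hyE
        by_cases hxE : x ∈ Ex D h x
        · rw [mu1_in hxE, mu1_in (by rw [Ex_gl_w hD.con hh hg x]; exact hxE), Ex_gl_w hD.con hh hg x,
            sg_gl_w hD.con hh hg fun v hv => Or.inr (hdis v (bdry_subset _ hv))]
        · rw [mu1_out hxE, mu1_out (by rw [Ex_gl_w hD.con hh hg x]; exact hxE), gl_out]
          intro hx'
          have e1 := Ex_eq_of_mem hx'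
          apply hxE
          rw [e1]
          exact hx'
  rw [s1, s2, mul_sum]
  refine sum_le_sum fun h _ => ?_
  have h1 : mu1 D x h * mu1 D y h ≤ 4 := by
    have h2 := abs_mu1 (h := h) hx
    have h3 := abs_mu1 (h := h) hy
    calc mu1 D x h * mu1 D y h ≤ |mu1 D x h * mu1 D y h| := le_abs_self _
      _ = |mu1 D x h| * |mu1 D y h| := abs_mul _ _
      _ ≤ 2 * 2 := mul_le_mul h2 h3 (abs_nonneg _) (by norm_num)
      _ = 4 := by norm_num
  have h4 := ind_nonneg (y ∉ Ex D h x)
  nlinarith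

/-! ### the same for the strong class -/

theorem markov (hD : SC D) (x : V) (E : Finset V) (F : (V → ℤ) → ℝ) :
    ∑ h ∈ OmE D x E, F h = ∑ h ∈ OmE D x E, avg (Om E) (fun g => F (gl E (sg E h) h g)) :=
  markov_w hD.wc x E F

lemma resample (hD : SC D) (x : V) (G : (V → ℤ) → ℝ)
    (hG : ∀ h ∈ Om D, x ∈ Ex D h x → ∀ g ∈ Om (Ex D h x),
      G (gl (Ex D h x) (sg (Ex D h x) h) h g) = G h) :
    ∑ h ∈ Om D, G h * (h x : ℝ) = ∑ h ∈ Om D, G h * mu1 D x h := resample_w hD.wc x G hG

lemma cross_le (hD : SC D) (hx : x ∈ D) (hy : y ∈ D) :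
    ∑ h ∈ Om D, ind (y ∉ Ex D h x) * ((h x : ℝ) * h y) ≤
      4 * ∑ h ∈ Om D, ind (y ∉ Ex D h x) := cross_le_w hD.wc hx hy

end LG
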