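import Pool.Agent.Helper86.LG.Mk2

/-!
# Project DV (MP_973bc8_pr), block LG: recursion for covariances and variances
-/

open Finset RP4 DV

namespace LG

variable {D : Finset V} {h g : V → ℤ} {x y v z : V}

open Classical in
lemma sum_fiber' (D : Finset V) (x y : V) (F : (V → ℤ) → ℝ) :
    ∑ h ∈ Om D, F h = ∑ E ∈ D.powerset.filter (fun E => y ∈ E), ∑ h ∈ OmE D x E, F h +
      ∑ h ∈ Om D, ind (y ∉ Ex D h x) * F h := by
  have h1 : ∑ E ∈ D.powerset.filter (fun E => y ∈ E), ∑ h ∈ OmE D x E, F h =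
      ∑ h ∈ (Om D).filter (fun h => y ∈ Ex D h x), F h := by
    have h2 := Finset.sum_fiberwise_of_maps_to (s := (Om D).filter (fun h => y ∈ Ex D h x))
      (t := D.powerset.filter (fun E => y ∈ E)) (g := fun h => Ex D h x)
      (fun h hh => mem_filter.2 ⟨mem_powerset.2 Ex_sub, (mem_filter.1 hh).2⟩) F
    rw [← h2]
    refine sum_congr rfl fun E hE => ?_
    have hy : y ∈ E := (mem_filter.1 hE).2
    congr 1
    ext h
    rw [mem_OmE, mem_filter, mem_filter]
    constructor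
    · rintro ⟨a, _, b⟩
      exact ⟨⟨a, by rw [b]; exact hy⟩, b⟩
    · rintro ⟨⟨a, c⟩, b⟩
      exact ⟨a, mem_Ex_self c, b⟩
  rw [h1, ← Finset.sum_filter_add_sum_filter_not (Om D) (fun h => y ∈ Ex D h x)]
  congr 1
  rw [Finset.sum_filter]
  refine sum_congr rfl fun h _ => ?_
  by_cases hx : y ∈ Ex D h x
  · rw [if_neg (not_not.2 hx), ind_false (not_not.2 hx), zero_mul]
  · rw [if_pos hx, ind_true hx, one_mul]

/-- the product of two heights in one component -/
lemma sum_OmE_mul_w (hD : WC D) {E : Finset V} (hx : x ∈ E) (hy : y ∈ E) (w : V) :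
    ∑ h ∈ OmE D w E, ((h x : ℝ) * h y) =
      (OmE D w E).card * (4 + avg (Om E) (fun g => (g x : ℝ) * g y)) := by
  classical
  rw [markov_w hD w E]
  have key : ∀ h ∈ OmE D w E, avg (Om E) (fun g => ((gl E (sg E h) h g x : ℤ) : ℝ) *
      ((gl E (sg E h) h g y : ℤ) : ℝ)) = 4 + avg (Om E) (fun g => (g x : ℝ) * g y) := by
    intro h hh
    obtain ⟨h1, h2, h3⟩ := mem_OmE.1 hh
    have hE : SC E := by
      rw [← h3]
      exact Ex_SC_w hD.con h1
    have hne := Om_nonempty hE.par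
    have hs : (sg E h : ℝ) * (sg E h : ℝ) = 1 := by exact_mod_cast sg_sq E h
    have e1 : avg (Om E) (fun g => ((gl E (sg E h) h g x : ℤ) : ℝ) *
        ((gl E (sg E h) h g y : ℤ) : ℝ)) =
        avg (Om E) (fun g => 4 + (2 * (g x : ℝ) + (2 * (g y : ℝ) + (g x : ℝ) * g y))) := by
      unfold avg
      congr 1
      refine sum_congr rfl fun g _ => ?_
      simp only [gl_in hx, gl_in hy]
      push_cast
      linear_combination ((2 + (g x : ℝ)) * (2 + g y)) * hs
    rw [e1, avg_add, avg_const' hne, avg_add, avg_add, avg_mul_left, avg_mul_left, avg_Om_zero,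
      avg_Om_zero]
    ring
  rw [sum_congr rfl key, sum_const, nsmul_eq_mul]

open Classical in
/-- recursion for the covariance: either the two points are separated by the boundary cluster
(contribution at most `4`), or both are in one component -/
theorem cov_rec_w (hD : WC D) (hx : x ∈ D) (hy : y ∈ D) :
    avg (Om D) (fun h => (h x : ℝ) * h y) ≤ 4 + ∑ E ∈ D.powerset.filter (fun E => y ∈ E),
      pE D x E * avg (Om E) (fun g => (g x : ℝ) * g y) := by
  have hne := Om_nonempty hD.par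
  have hN : (0 : ℝ) < (Om D).card := by exact_mod_cast hne.card_pos
  have h1 := sum_fiber' D x y (fun h => (h x : ℝ) * h y)
  have h2 := sum_fiber' D x y (fun _ => (1 : ℝ))
  have h3 := cross_le_w hD hx hy
  have h4 : ∑ E ∈ D.powerset.filter (fun E => y ∈ E), ∑ h ∈ OmE D x E, ((h x : ℝ) * h y) =
      4 * ∑ E ∈ D.powerset.filter (fun E => y ∈ E), ((OmE D x E).card : ℝ) +
      ∑ E ∈ D.powerset.filter (fun E => y ∈ E), ((OmE D x E).card : ℝ) *
        avg (Om E) (fun g => (g x : ℝ) * g y) := by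
    rw [mul_sum, ← sum_add_distrib]
    refine sum_congr rfl fun E hE => ?_
    by_cases h0 : (OmE D x E) = ∅
    · rw [h0]
      simp
    · obtain ⟨h, hh⟩ := Finset.nonempty_iff_ne_empty.2 h0
      obtain ⟨_, h5, h6⟩ := mem_OmE.1 hh
      have hxE : x ∈ E := by
        rw [← h6]
        exact h5
      rw [sum_OmE_mul_w hD hxE (mem_filter.1 hE).2]
      ring
  simp only [sum_const, nsmul_eq_mul, mul_one] at h2
  have h5 : ∑ E ∈ D.powerset.filter (fun E => y ∈ E),
      pE D x E * avg (Om E) (fun g => (g x : ℝ) * g y) =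
      (∑ E ∈ D.powerset.filter (fun E => y ∈ E), ((OmE D x E).card : ℝ) *
        avg (Om E) (fun g => (g x : ℝ) * g y)) / (Om D).card := by
    rw [sum_div]
    refine sum_congr rfl fun E _ => ?_
    unfold pE
    ring
  rw [h5]
  show (∑ h ∈ Om D, ((h x : ℝ) * h y)) / (Om D).card ≤ _
  rw [h1, h4]
  rw [div_le_iff₀ hN, add_mul, div_mul_cancel₀ _ hN.ne']
  nlinarith [h3, h2]

/-- a linear functional supported in one component -/
lemma sum_OmE_sq_w (hD : WC D) {E B : Finset V} (hB : B ⊆ E) (f : V → ℝ) (w : V) :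
    ∑ h ∈ OmE D w E, (∑ v ∈ B, f v * (h v : ℝ)) ^ 2 =
      (OmE D w E).card * (4 * (∑ v ∈ B, f v) ^ 2 +
        avg (Om E) (fun g => (∑ v ∈ B, f v * (g v : ℝ)) ^ 2)) := by
  classical
  rw [markov_w hD w E]
  have key : ∀ h ∈ OmE D w E, avg (Om E)
      (fun g => (∑ v ∈ B, f v * ((gl E (sg E h) h g v : ℤ) : ℝ)) ^ 2) =
      4 * (∑ v ∈ B, f v) ^ 2 + avg (Om E) (fun g => (∑ v ∈ B, f v * (g v : ℝ)) ^ 2) := by
    intro h hh
    obtain ⟨h1, h2, h3⟩ := mem_OmE.1 hh
    have hE : SC E := by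
      rw [← h3]
      exact Ex_SC_w hD.con h1
    have hne := Om_nonempty hE.par
    have hs : (sg E h : ℝ) * (sg E h : ℝ) = 1 := by exact_mod_cast sg_sq E h
    have e1 : avg (Om E) (fun g => (∑ v ∈ B, f v * ((gl E (sg E h) h g v : ℤ) : ℝ)) ^ 2) =
        avg (Om E) (fun g => 4 * (∑ v ∈ B, f v) ^ 2 +
          (4 * (∑ v ∈ B, f v) * (∑ v ∈ B, f v * (g v : ℝ)) + (∑ v ∈ B, f v * (g v : ℝ)) ^ 2)) := by
      unfold avg
      congr 1
      refine sum_congr rfl fun g _ => ?_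
      have e2 : ∑ v ∈ B, f v * ((gl E (sg E h) h g v : ℤ) : ℝ) =
          (sg E h : ℝ) * (2 * (∑ v ∈ B, f v) + ∑ v ∈ B, f v * (g v : ℝ)) := by
        rw [mul_sum, ← sum_add_distrib, mul_sum]
        refine sum_congr rfl fun v hv => ?_
        rw [gl_in (hB hv)]
        push_cast
        ring
      simp only [e2]
      linear_combination (2 * (∑ v ∈ B, f v) + ∑ v ∈ B, f v * (g v : ℝ)) ^ 2 * hs
    have e3 : avg (Om E) (fun g => ∑ v ∈ B, f v * (g v : ℝ)) = 0 := by
      have e4 : avg (Om E) (fun g => ∑ v ∈ B, f v * (g v : ℝ)) =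
          ∑ v ∈ B, f v * avg (Om E) (fun g => (g v : ℝ)) := by
        unfold avg
        rw [sum_comm, sum_div]
        refine sum_congr rfl fun v _ => ?_
        rw [← mul_sum, mul_div_assoc]
      rw [e4]
      simp only [avg_Om_zero, mul_zero, sum_const_zero]
    rw [e1, avg_add, avg_const' hne, avg_add, avg_mul_left, e3]
    ring
  rw [sum_congr rfl key, sum_const, nsmul_eq_mul]

open Classical in
/-- recursion for the variance: lower bound by the components which contain the support -/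
theorem var_rec_w (hD : WC D) (x : V) (B : Finset V) (f : V → ℝ) :
    ∑ E ∈ D.powerset.filter (fun E => B ⊆ E), pE D x E * (4 * (∑ v ∈ B, f v) ^ 2 +
      avg (Om E) (fun g => (∑ v ∈ B, f v * (g v : ℝ)) ^ 2)) ≤
      avg (Om D) (fun h => (∑ v ∈ B, f v * (h v : ℝ)) ^ 2) := by
  have hne := Om_nonempty hD.par
  have hN : (0 : ℝ) < (Om D).card := by exact_mod_cast hne.card_pos
  have h1 := sum_fiber D x (fun h => (∑ v ∈ B, f v * (h v : ℝ)) ^ 2)
  have h2 : 0 ≤ ∑ h ∈ Om D, ind (x ∉ Ex D h x) * (∑ v ∈ B, f v * (h v : ℝ)) ^ 2 :=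
    sum_nonneg fun h _ => mul_nonneg (ind_nonneg _) (sq_nonneg _)
  have h3 : ∑ E ∈ D.powerset.filter (fun E => B ⊆ E), ∑ h ∈ OmE D x E,
      (∑ v ∈ B, f v * (h v : ℝ)) ^ 2 ≤
      ∑ E ∈ D.powerset, ∑ h ∈ OmE D x E, (∑ v ∈ B, f v * (h v : ℝ)) ^ 2 :=
    sum_le_sum_of_subset_of_nonneg (filter_subset _ _)
      fun E _ _ => sum_nonneg fun h _ => sq_nonneg _
  have h4 : ∑ E ∈ D.powerset.filter (fun E => B ⊆ E), pE D x E * (4 * (∑ v ∈ B, f v) ^ 2 +
      avg (Om E) (fun g => (∑ v ∈ B, f v * (g v : ℝ)) ^ 2)) =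
      (∑ E ∈ D.powerset.filter (fun E => B ⊆ E), ∑ h ∈ OmE D x E,
        (∑ v ∈ B, f v * (h v : ℝ)) ^ 2) / (Om D).card := by
    rw [sum_div]
    refine sum_congr rfl fun E hE => ?_
    rw [sum_OmE_sq_w hD (mem_filter.1 hE).2 f x]
    unfold pE
    ring
  rw [h4]
  show _ ≤ (∑ h ∈ Om D, (∑ v ∈ B, f v * (h v : ℝ)) ^ 2) / (Om D).card
  gcongr
  rw [h1]
  linarith

/-- the probability of a property of the component -/
lemma sum_pE (D : Finset V) (x : V) (P : Finset V → Prop) [DecidablePred P] :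
    ∑ E ∈ D.powerset.filter P, pE D x E =
      avg (Om D) (fun h => ind (x ∈ Ex D h x ∧ P (Ex D h x))) := by
  classical
  have h1 : ∑ E ∈ D.powerset.filter P, ((OmE D x E).card : ℝ) =
      ∑ h ∈ Om D, ind (x ∈ Ex D h x ∧ P (Ex D h x)) := by
    have h2 := Finset.sum_fiberwise_of_maps_to
      (s := (Om D).filter (fun h => x ∈ Ex D h x ∧ P (Ex D h x)))
      (t := D.powerset.filter P) (g := fun h => Ex D h x)
      (fun h hh => mem_filter.2 ⟨mem_powerset.2 Ex_sub, (mem_filter.1 hh).2.2⟩) (fun _ => (1 : ℝ))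
    have h3 : ∑ h ∈ Om D, ind (x ∈ Ex D h x ∧ P (Ex D h x)) =
        ∑ h ∈ (Om D).filter (fun h => x ∈ Ex D h x ∧ P (Ex D h x)), (1 : ℝ) := by
      rw [Finset.sum_filter]
      refine sum_congr rfl fun h _ => ?_
      unfold ind
      congr!
    rw [h3, ← h2]
    refine sum_congr rfl fun E hE => ?_
    have hP : P E := (mem_filter.1 hE).2
    rw [sum_const, nsmul_eq_mul, mul_one]
    congr 2
    ext h
    rw [mem_OmE, mem_filter, mem_filter]
    constructor
    · rintro ⟨a, c, b⟩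
      exact ⟨⟨a, c, by rw [b]; exact hP⟩, b⟩
    · rintro ⟨⟨a, c, _⟩, b⟩
      exact ⟨a, c, b⟩
  unfold avg pE
  rw [← h1, sum_div]

/-! ### the same for the strong class -/

lemma sum_OmE_mul (hD : SC D) {E : Finset V} (hx : x ∈ E) (hy : y ∈ E) (w : V) :
    ∑ h ∈ OmE D w E, ((h x : ℝ) * h y) =
      (OmE D w E).card * (4 + avg (Om E) (fun g => (g x : ℝ) * g y)) := sum_OmE_mul_w hD.wc hx hy w

open Classical in
theorem cov_rec (hD : SC D) (hx : x ∈ D) (hy : y ∈ D) :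
    avg (Om D) (fun h => (h x : ℝ) * h y) ≤ 4 + ∑ E ∈ D.powerset.filter (fun E => y ∈ E),
      pE D x E * avg (Om E) (fun g => (g x : ℝ) * g y) := cov_rec_w hD.wc hx hy

lemma sum_OmE_sq (hD : SC D) {E B : Finset V} (hB : B ⊆ E) (f : V → ℝ) (w : V) :
    ∑ h ∈ OmE D w E, (∑ v ∈ B, f v * (h v : ℝ)) ^ 2 =
      (OmE D w E).card * (4 * (∑ v ∈ B, f v) ^ 2 +
        avg (Om E) (fun g => (∑ v ∈ B, f v * (g v : ℝ)) ^ 2)) := sum_OmE_sq_w hD.wc hB f w

open Classical in
theorem var_rec (hD : SC D) (x : V) (B : Finset V) (f : V → ℝ) :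
    ∑ E ∈ D.powerset.filter (fun E => B ⊆ E), pE D x E * (4 * (∑ v ∈ B, f v) ^ 2 +
      avg (Om E) (fun g => (∑ v ∈ B, f v * (g v : ℝ)) ^ 2)) ≤
      avg (Om D) (fun h => (∑ v ∈ B, f v * (h v : ℝ)) ^ 2) := var_rec_w hD.wc x B f

end LG
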